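import Pool.Agent.H98.SG.Rel

set_option autoImplicit false
set_option linter.unusedSectionVars false

namespace Pool.Agent.H98.SG

open Finset Pool.Agent.H98.ST

variable {V : Type} [Fintype V] [DecidableEq V] {S M : Finset (Finset V)}

/-- the uncovered points `u` whose triple with `z` has its third point in `B` -/
noncomputable def att (h : IsSTS S) (M : Finset (Finset V)) (B : Finset V) (z : V) : Finset V :=
  (unc M).filter (fun u => u ≠ z ∧ th h z u ∈ B)

end Pool.Agent.H98.SG
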