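import Pool.Agent.H98.ST.Main

/-! Counting pairs of points with cores by their third point. -/

set_option autoImplicit false
set_option linter.unusedSectionVars false

namespace Pool.Agent.H98.SG

open Finset Pool.Agent.H98.ST

variable {V : Type} [Fintype V] [DecidableEq V] {S : Finset (Finset V)}

/-- ordered pairs of points of `P` with disjoint cores whose third point is in neither core -/
noncomputable def gp (h : IsSTS S) (P : Finset V) (C : V → Finset V) : Finset (V × V) :=
  (P ×ˢ P).filter (fun x => Disjoint (C x.1) (C x.2) ∧ th h x.1 x.2 ∉ C x.1 ∧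
    th h x.1 x.2 ∉ C x.2)

/-- the pairs of `gp` with third point `z` -/
noncomputable def fib (h : IsSTS S) (P : Finset V) (C : V → Finset V) (z : V) : Finset (V × V) :=
  (gp h P C).filter (fun x => th h x.1 x.2 = z)

theorem mem_gp (h : IsSTS S) {P : Finset V} {C : V → Finset V} {x : V × V} :
    x ∈ gp h P C ↔ x.1 ∈ P ∧ x.2 ∈ P ∧ Disjoint (C x.1) (C x.2) ∧ th h x.1 x.2 ∉ C x.1 ∧
      th h x.1 x.2 ∉ C x.2 := by
  simp [gp, and_assoc]

theorem mem_fib (h : IsSTS S) {P : Finset V} {C : V → Finset V} {z : V} {x : V × V} :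
    x ∈ fib h P C z ↔ x ∈ gp h P C ∧ th h x.1 x.2 = z := by
  simp [fib]

theorem ne_of_core {C : V → Finset V} {p q : V} (hp : p ∈ C p)
    (hd : Disjoint (C p) (C q)) (hq : q ∈ C q) : p ≠ q := by
  rintro rfl
  exact Finset.disjoint_left.1 hd hp hq

theorem th_left (h : IsSTS S) {p q z : V} (hpq : p ≠ q) (hz : th h p q = z) :
    th h p z = q ∧ th h q z = p := by
  constructor
  · rw [← hz, th_th h hpq]
  · rw [← hz, ← th_comm h hpq, th_th h hpq.symm]

theorem card_gp (h : IsSTS S) {P : Finset V} {C : V → Finset V} {D : ℕ}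
    (hself : ∀ p ∈ P, p ∈ C p) (h7 : ∀ p ∈ P, (C p).card ≤ 7)
    (hD : ∀ f, (P.filter (fun p => f ∈ C p)).card ≤ D) :
    P.card * P.card ≤ (gp h P C).card + (7 * D + 14) * P.card := by
  have hbad : ((P ×ˢ P).filter (fun x => ¬ (Disjoint (C x.1) (C x.2) ∧ th h x.1 x.2 ∉ C x.1 ∧
      th h x.1 x.2 ∉ C x.2))) ⊆
      (P.biUnion fun p => (((C p).biUnion fun f => P.filter (fun q => f ∈ C q)) ∪
        (C p).image (fun c => th h p c)).image (fun q => (p, q))) ∪
      (P.biUnion fun q => ((C q).image (fun c => th h q c)).image (fun p => (p, q))) := by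
    rintro ⟨p, q⟩ hx
    rw [mem_filter, mem_product] at hx
    obtain ⟨⟨hp, hq⟩, hx⟩ := hx
    simp only at hp hq hx
    rw [mem_union]
    by_cases hd : Disjoint (C p) (C q)
    · have hne := ne_of_core (hself p hp) hd (hself q hq)
      by_cases h1 : th h p q ∈ C p
      · refine Or.inl (mem_biUnion.2 ⟨p, hp, mem_image.2 ⟨q, mem_union_right _ ?_, rfl⟩⟩)
        exact mem_image.2 ⟨th h p q, h1, (th_left h hne rfl).1⟩
      · by_cases h2 : th h p q ∈ C q
        · refine Or.inr (mem_biUnion.2 ⟨q, hq, mem_image.2 ⟨p, ?_, rfl⟩⟩)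
          exact mem_image.2 ⟨th h p q, h2, (th_left h hne rfl).2⟩
        · exact absurd ⟨hd, h1, h2⟩ hx
    · obtain ⟨f, hf1, hf2⟩ := not_disjoint_iff.1 hd
      refine Or.inl (mem_biUnion.2 ⟨p, hp, mem_image.2 ⟨q, mem_union_left _ ?_, rfl⟩⟩)
      exact mem_biUnion.2 ⟨f, hf1, mem_filter.2 ⟨hq, hf2⟩⟩
  have h1 := card_le_card hbad
  have h2 := card_union_le
      (P.biUnion fun p => (((C p).biUnion fun f => P.filter (fun q => f ∈ C q)) ∪
        (C p).image (fun c => th h p c)).image (fun q => (p, q)))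
      (P.biUnion fun q => ((C q).image (fun c => th h q c)).image (fun p => (p, q)))
  have h3 : (P.biUnion fun p => (((C p).biUnion fun f => P.filter (fun q => f ∈ C q)) ∪
        (C p).image (fun c => th h p c)).image (fun q => (p, q))).card ≤ P.card * (7 * D + 7) := by
    apply card_biUnion_le_card_mul
    intro p hp
    refine card_image_le.trans ((card_union_le _ _).trans (Nat.add_le_add ?_ ?_))
    · refine (card_biUnion_le_card_mul _ _ D fun f _ => hD f).trans ?_
      exact Nat.mul_le_mul_right _ (h7 p hp)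
    · exact card_image_le.trans (h7 p hp)
  have h4 : (P.biUnion fun q => ((C q).image (fun c => th h q c)).image
      (fun p => (p, q))).card ≤ P.card * 7 := by
    apply card_biUnion_le_card_mul
    intro q hq
    exact card_image_le.trans (card_image_le.trans (h7 q hq))
  have h5 := Finset.card_filter_add_card_filter_not (s := P ×ˢ P) (fun x : V × V =>
    Disjoint (C x.1) (C x.2) ∧ th h x.1 x.2 ∉ C x.1 ∧ th h x.1 x.2 ∉ C x.2)
  rw [card_product] at h5
  have h6 : (gp h P C).card = ((P ×ˢ P).filter (fun x : V × V =>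
    Disjoint (C x.1) (C x.2) ∧ th h x.1 x.2 ∉ C x.1 ∧ th h x.1 x.2 ∉ C x.2)).card := rfl
  rw [h6]
  have h7' : (7 * D + 14) * P.card = P.card * (7 * D + 7) + P.card * 7 := by ring
  omega

theorem fib_le (h : IsSTS S) {P : Finset V} {C : V → Finset V}
    (hself : ∀ p ∈ P, p ∈ C p) (z : V) : (fib h P C z).card ≤ P.card := by
  apply Finset.card_le_card_of_injOn (fun x : V × V => x.1)
  · intro x hx
    exact ((mem_gp h).1 ((mem_fib h).1 hx).1).1
  · rintro ⟨p, q⟩ hx ⟨p', q'⟩ hy he
    simp only at he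
    subst he
    obtain ⟨hx1, hx2⟩ := (mem_fib h).1 (mem_coe.1 hx)
    obtain ⟨hy1, hy2⟩ := (mem_fib h).1 (mem_coe.1 hy)
    obtain ⟨a1, a2, a3, -⟩ := (mem_gp h).1 hx1
    obtain ⟨b1, b2, b3, -⟩ := (mem_gp h).1 hy1
    have e1 := (th_left h (ne_of_core (hself _ a1) a3 (hself _ a2)) hx2).1
    have e2 := (th_left h (ne_of_core (hself _ b1) b3 (hself _ b2)) hy2).1
    simp only at e1 e2
    rw [← e1, ← e2]

/-- many third points are heavy -/
theorem pair_count (h : IsSTS S) {P : Finset V} {C : V → Finset V} {D : ℕ}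
    (hself : ∀ p ∈ P, p ∈ C p) (h7 : ∀ p ∈ P, (C p).card ≤ 7)
    (hD : ∀ f, (P.filter (fun p => f ∈ C p)).card ≤ D) (Q : ℕ) :
    P.card * P.card ≤ (univ.filter (fun z => Q < (fib h P C z).card)).card * P.card +
      Fintype.card V * Q + (7 * D + 14) * P.card := by
  have h1 := card_gp h hself h7 hD
  have h2 : (gp h P C).card = ∑ z : V, (fib h P C z).card :=
    Finset.card_eq_sum_card_fiberwise (f := fun x : V × V => th h x.1 x.2) (t := univ)
      (fun _ _ => mem_coe.2 (mem_univ _))
  have h3 : ∀ z ∈ (univ : Finset V), (fib h P C z).card ≤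
      (if Q < (fib h P C z).card then P.card else 0) + Q := by
    intro z _
    split_ifs with g
    · have := fib_le h hself z
      omega
    · omega
  have h4 := Finset.sum_le_sum h3
  rw [Finset.sum_add_distrib, ← Finset.sum_filter, Finset.sum_const, Finset.sum_const,
    smul_eq_mul, smul_eq_mul, card_univ] at h4
  omega

/-- a heavy third point has pairs with cores off a given small set -/
theorem fib_avoid (h : IsSTS S) {P : Finset V} {C : V → Finset V} {D : ℕ}
    (hself : ∀ p ∈ P, p ∈ C p) (hD : ∀ f, (P.filter (fun p => f ∈ C p)).card ≤ D) {k : ℕ}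
    {z : V} (hz : 2 * (k * D) < (fib h P C z).card) {F : Finset V} (hF : F.card ≤ k) :
    ∃ p q, (p, q) ∈ gp h P C ∧ th h p q = z ∧ Disjoint (C p) F ∧ Disjoint (C q) F := by
  by_contra hno
  push Not at hno
  have hsub : fib h P C z ⊆
      (F.biUnion fun f => P.filter (fun p => f ∈ C p)).image (fun p => (p, th h p z)) ∪
      (F.biUnion fun f => P.filter (fun p => f ∈ C p)).image (fun q => (th h q z, q)) := by
    rintro ⟨p, q⟩ hx
    obtain ⟨hx1, hx2⟩ := (mem_fib h).1 hx
    obtain ⟨a1, a2, a3, -⟩ := (mem_gp h).1 hx1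
    simp only at hx2 a1 a2 a3
    obtain ⟨e1, e2⟩ := th_left h (ne_of_core (hself _ a1) a3 (hself _ a2)) hx2
    by_cases hd : Disjoint (C p) F
    · obtain ⟨f, hf1, hf2⟩ := not_disjoint_iff.1 (hno p q hx1 hx2 hd)
      refine mem_union_right _ (mem_image.2 ⟨q, ?_, by rw [e2]⟩)
      exact mem_biUnion.2 ⟨f, hf2, mem_filter.2 ⟨a2, hf1⟩⟩
    · obtain ⟨f, hf1, hf2⟩ := not_disjoint_iff.1 hd
      refine mem_union_left _ (mem_image.2 ⟨p, ?_, by rw [e1]⟩)
      exact mem_biUnion.2 ⟨f, hf2, mem_filter.2 ⟨a1, hf1⟩⟩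
  have h1 := card_le_card hsub
  have h2 : (F.biUnion fun f => P.filter (fun p => f ∈ C p)).card ≤ F.card * D :=
    card_biUnion_le_card_mul _ _ _ fun f _ => hD f
  have h3 : F.card * D ≤ k * D := Nat.mul_le_mul_right _ hF
  have h4 := card_union_le
      ((F.biUnion fun f => P.filter (fun p => f ∈ C p)).image (fun p => (p, th h p z)))
      ((F.biUnion fun f => P.filter (fun p => f ∈ C p)).image (fun q => (th h q z, q)))
  have h5 : ((F.biUnion fun f => P.filter (fun p => f ∈ C p)).image
      (fun p => (p, th h p z))).card ≤ _ := card_image_le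
  have h6 : ((F.biUnion fun f => P.filter (fun p => f ∈ C p)).image
      (fun q => (th h q z, q))).card ≤ _ := card_image_le
  omega

end Pool.Agent.H98.SG
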