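import Pool.Agent.H98.SG.Att

set_option autoImplicit false
set_option linter.unusedSectionVars false

namespace Pool.Agent.H98.SG

open Finset Pool.Agent.H98.ST

variable {V : Type} [Fintype V] [DecidableEq V] {S M : Finset (Finset V)}

theorem home_symm (hM : MaxM S M) {b c : V} (hb : b ∈ home M c) : c ∈ home M b := by
  by_contra hc
  exact Finset.disjoint_left.1 (home_disj hM hc) (self_home b) hb

theorem mem_att (h : IsSTS S) {B : Finset V} {z u : V} :
    u ∈ att h M B z ↔ u ∈ unc M ∧ u ≠ z ∧ th h z u ∈ B := by
  simp [att]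

/-- the third point of an attached pair is not in the triple of `z` -/
theorem third_notMem (h : IsSTS S) (hM : MaxM S M) {t : Finset V} (ht : t ∈ M) {z u : V}
    (hz : z ∈ t) (hu : u ∈ unc M) : th h z u ∉ t := by
  intro hb
  have hzu : z ≠ u := fun he => mem_unc.1 hu (mem_cov.2 ⟨t, ht, he ▸ hz⟩)
  obtain ⟨h1, h2, h3⟩ := th_spec h hzu
  have := (h.pair z (th h z u) h1.symm).unique (y₁ := {z, u, th h z u}) (y₂ := t)
    ⟨h3, by simp, by simp⟩ ⟨hM.sub ht, hz, hb⟩
  apply mem_unc.1 hu
  refine mem_cov.2 ⟨t, ht, ?_⟩
  rw [← this]; simp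

/-- companions of a point with many attached pairs are releasable -/
theorem release (h : IsSTS S) (hM : MaxM S M) {K s K' : ℕ} (hK : K' + 4 ≤ K) {B : Finset V}
    (hB : ∀ b ∈ B, Rel S M K s b) {t : Finset V} (ht : t ∈ M) {z b' : V} (hz : z ∈ t)
    (hb' : b' ∈ t) (hne : b' ≠ z) (hq : 4 * K' + 1 ≤ (att h M B z).card) :
    Rel S M K' (s + 5) b' := by
  intro F hF hdF
  rw [home_of_mem hM ht hb'] at hdF
  have hzu : ∀ u ∈ att h M B z, z ≠ u := fun u hu => ((mem_att h).1 hu).2.1.symm
  have hex : ∃ u ∈ att h M B z, u ∉ F ∧ Disjoint (home M (th h z u)) F := by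
    by_contra hno
    push Not at hno
    have hsub : att h M B z ⊆ F ∪ F.biUnion (fun f => (home M f).image (fun w => th h z w)) := by
      intro u hu
      by_cases huF : u ∈ F
      · exact mem_union_left _ huF
      · apply mem_union_right
        obtain ⟨f, hf1, hf2⟩ := not_disjoint_iff.1 (hno u hu huF)
        exact mem_biUnion.2 ⟨f, hf2, mem_image.2 ⟨th h z u, home_symm hM hf1, th_th h (hzu u hu)⟩⟩
    have h1 := card_le_card hsub
    have h2 := card_union_le F (F.biUnion (fun f => (home M f).image (fun w => th h z w)))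
    have h3 : (F.biUnion (fun f => (home M f).image (fun w => th h z w))).card ≤ F.card * 3 :=
      card_biUnion_le_card_mul _ _ _ fun f _ => card_image_le.trans (home_card h hM f)
    omega
  obtain ⟨u, hu, huF, hdu⟩ := hex
  obtain ⟨huU, huz, hbB⟩ := (mem_att h).1 hu
  obtain ⟨hbz, hbu, hT'⟩ := th_spec h huz.symm
  have hbt := third_notMem h hM ht hz huU
  set b := th h z u with hbdef
  have hT : ({z, b, u} : Finset V) ∈ S := by
    have : ({z, b, u} : Finset V) = {z, u, b} := by
      ext x; simp only [mem_insert, mem_singleton]; tauto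
    rw [this]; exact hT'
  have hut : u ∉ t := fun hx => mem_unc.1 huU (mem_cov.2 ⟨t, ht, hx⟩)
  obtain ⟨R, A, e, hbA, hbR, hd, hs⟩ := hB b hbB (F ∪ t ∪ {u})
    (by
      have h1 := card_union_le (F ∪ t) {u}
      have h2 := card_union_le F t
      have h3 := h.three t (hM.sub ht)
      rw [card_singleton] at h1
      omega)
    (by
      rw [disjoint_union_right, disjoint_union_right, disjoint_singleton_right]
      exact ⟨⟨hdu, home_disj_triple hM ht hbt⟩, unc_home hM huU hbu.symm⟩)
  rw [disjoint_union_right, disjoint_union_right] at hd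
  obtain ⟨⟨hdF', hdt⟩, hdu'⟩ := hd
  have htA : ∀ x ∈ t, x ∉ cov A := fun x hx hx' =>
    Finset.disjoint_left.1 hdt (mem_union_right _ hx') hx
  have huA : u ∉ cov A := fun hx' =>
    Finset.disjoint_left.1 hdu' (mem_union_right _ hx') (mem_singleton_self u)
  have hdT : Disjoint ({z, b, u} : Finset V) (cov A) := by
    rw [Finset.disjoint_left]
    intro x hx
    simp only [mem_insert, mem_singleton] at hx
    rcases hx with hx | hx | hx
    · rw [hx]; exact htA z hz
    · rw [hx]; exact hbA
    · rw [hx]; exact huA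
  have htR : t ∉ R := by
    intro htR
    exact Finset.disjoint_left.1 hdt (mem_union_left _ (sub_cov htR hz)) hz
  have hbF : b ∉ F := fun hx => Finset.disjoint_left.1 hdu (self_home b) hx
  refine ⟨insert t R, insert {z, b, u} A, ⟨insert_subset ht e.hR, insert_subset hT e.hA,
    e.dis.insert hdT, ?_, ?_⟩, ?_, ?_, ?_, ?_⟩
  · rw [cov_insert, cov_insert]
    apply union_subset
    · intro x hx
      simp only [mem_insert, mem_singleton] at hx
      rcases hx with hx | hx | hx
      · rw [hx]; exact mem_union_left _ (mem_union_left _ hz)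
      · rw [hx]
        rcases mem_union.1 hbR with h3 | h3
        · exact mem_union_left _ (mem_union_right _ h3)
        · exact mem_union_right _ h3
      · rw [hx]; exact mem_union_right _ huU
    · intro x hx
      rcases mem_union.1 (e.sub hx) with h3 | h3
      · exact mem_union_left _ (mem_union_right _ h3)
      · exact mem_union_right _ h3
  · rw [card_insert_of_notMem (not_mem_of_disj h hT hdT), card_insert_of_notMem htR, e.card]
  · rw [cov_insert, mem_union, not_or]
    refine ⟨?_, htA b' hb'⟩
    simp only [mem_insert, mem_singleton, not_or]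
    exact ⟨hne, fun he => hbt (he ▸ hb'), fun he => hut (he ▸ hb')⟩
  · rw [cov_insert]
    exact mem_union_left _ (mem_union_left _ hb')
  · rw [cov_insert, cov_insert]
    have h5 := disjoint_union_left.1 hdF'
    simp only [disjoint_union_left]
    refine ⟨⟨hdF, h5.1⟩, ?_, h5.2⟩
    rw [Finset.disjoint_left]
    intro x hx
    simp only [mem_insert, mem_singleton] at hx
    rcases hx with hx | hx | hx
    · rw [hx]; exact fun hzF => Finset.disjoint_left.1 hdF hz hzF
    · rw [hx]; exact hbF
    · rw [hx]; exact huF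
  · have hsub : cov (insert t R) ∪ cov (insert {z, b, u} A) ⊆ (cov R ∪ cov A) ∪ (t ∪ {b, u}) := by
      rw [cov_insert, cov_insert]
      intro x hx
      simp only [mem_union, mem_insert, mem_singleton] at hx ⊢
      rcases hx with (hx | hx) | ((hx | hx | hx) | hx)
      · exact Or.inr (Or.inl hx)
      · exact Or.inl (Or.inl hx)
      · exact Or.inr (Or.inl (hx ▸ hz))
      · exact Or.inr (Or.inr (Or.inl hx))
      · exact Or.inr (Or.inr (Or.inr hx))
      · exact Or.inl (Or.inr hx)
    have h1 := card_le_card hsub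
    have h2 := card_union_le (cov R ∪ cov A) (t ∪ {b, u})
    have h3 := card_union_le t {b, u}
    have h4 : ({b, u} : Finset V).card ≤ 2 := card_le_two
    have h5 := h.three t (hM.sub ht)
    omega

end Pool.Agent.H98.SG
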