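import Pool.Agent.H98.SG.Layer
import Pool.Agent.H98.SG.Step
import Pool.Agent.H98.SG.PairCount

/-! Points with cores, one for every triple with an attached pair. -/

set_option autoImplicit false
set_option linter.unusedSectionVars false

namespace Pool.Agent.H98.SG

open Finset Pool.Agent.H98.ST

variable {V : Type} [Fintype V] [DecidableEq V] {S M : Finset (Finset V)}

theorem same_triple (hM : MaxM S M) {t s : Finset V} (ht : t ∈ M) (hs : s ∈ M) {x : V}
    (hxt : x ∈ t) (hxs : x ∈ s) : t = s := by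
  by_contra hne
  exact Finset.disjoint_left.1 (hM.dis t ht s hs hne) hxt hxs

theorem layer_one (h : IsSTS S) (hM : MaxM S M) {B : Finset V} {q : ℕ} (hq : 18 ≤ q)
    (h2 : ∀ b ∈ B, ∀ u ∈ unc M, ∀ v ∈ unc M, u ≠ b → v ≠ b → ({b, u, v} : Finset V) ∉ S)
    (h7 : ∀ t ∈ M, ∀ z₁ ∈ t, ∀ z₂ ∈ t, z₁ ≠ z₂ → 7 ≤ (att h M B z₁).card →
      (att h M B z₂).card = 0) :
    B.card * ((unc M).card - 1) ≤ (unc M).card * hv h M B q +
      q * (M.filter (fun t => ∃ z ∈ t, (att h M B z).Nonempty)).card := by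
  classical
  have hT : ∀ t ∈ M, ∑ z ∈ t, (att h M B z).card ≤
      (if ∃ z ∈ t, q ≤ (att h M B z).card then (unc M).card else 0) +
        (if ∃ z ∈ t, (att h M B z).Nonempty then q else 0) := by
    intro t ht
    rcases one_triple h hM h7 ht with ⟨z, hz, e3⟩ | h8
    · rw [e3]
      have e5 : (att h M B z).card ≤ (unc M).card := Finset.card_le_card (Finset.filter_subset _ _)
      by_cases g1 : q ≤ (att h M B z).card
      · rw [if_pos ⟨z, hz, g1⟩]
        omega
      · by_cases g2 : (att h M B z).Nonempty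
        · rw [if_pos (⟨z, hz, g2⟩ : ∃ z ∈ t, (att h M B z).Nonempty)]
          omega
        · rw [not_nonempty_iff_eq_empty] at g2
          rw [g2]
          simp
    · by_cases g2 : ∃ z ∈ t, (att h M B z).Nonempty
      · rw [if_pos g2]
        omega
      · have : ∑ z ∈ t, (att h M B z).card = 0 := by
          apply Finset.sum_eq_zero
          intro z hz
          rw [Finset.card_eq_zero, ← not_nonempty_iff_eq_empty]
          exact fun g => g2 ⟨z, hz, g⟩
        rw [this]
        exact Nat.zero_le _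
  calc B.card * ((unc M).card - 1) ≤ ∑ z, (att h M B z).card := sum_att h B
    _ = ∑ t ∈ M, ∑ z ∈ t, (att h M B z).card := sum_split h hM h2
    _ ≤ ∑ t ∈ M, ((if ∃ z ∈ t, q ≤ (att h M B z).card then (unc M).card else 0) +
        (if ∃ z ∈ t, (att h M B z).Nonempty then q else 0)) := Finset.sum_le_sum hT
    _ = _ := by
        rw [Finset.sum_add_distrib, ← Finset.sum_filter, ← Finset.sum_filter, Finset.sum_const,
          Finset.sum_const, smul_eq_mul, smul_eq_mul, hv_eq, mul_comm q, mul_comm (unc M).card]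

/-- the core of a point: its triple, an uncovered point and the home of a point of `B` -/
theorem cores (h : IsSTS S) (hM : MaxM S M) {B : Finset V} {q : ℕ} (hq : 18 ≤ q)
    (h2 : ∀ b ∈ B, ∀ u ∈ unc M, ∀ v ∈ unc M, u ≠ b → v ≠ b → ({b, u, v} : Finset V) ∉ S)
    (h7 : ∀ t ∈ M, ∀ z₁ ∈ t, ∀ z₂ ∈ t, z₁ ≠ z₂ → 7 ≤ (att h M B z₁).card →
      (att h M B z₂).card = 0) :
    ∃ (P : Finset V) (C : V → Finset V),
      B.card * ((unc M).card - 1) ≤ (unc M).card * hv h M B q + q * P.card ∧
      (∀ x ∈ P, ∃ t ∈ M, ∃ z ∈ t, ∃ u ∈ att h M B z, x ∈ t ∧ x ≠ z ∧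
        C x = t ∪ {u} ∪ home M (th h z u)) ∧
      ∀ f, (P.filter (fun x => f ∈ C x)).card ≤ 1 + B.card + 3 * (unc M).card := by
  classical
  rcases isEmpty_or_nonempty V with hV | hV
  · refine ⟨∅, fun _ => ∅, ?_, by simp, by simp⟩
    have : B = ∅ := Finset.eq_empty_of_isEmpty B
    rw [this]
    simp
  have hL := layer_one h hM hq h2 h7
  set L := M.filter (fun t => ∃ z ∈ t, (att h M B z).Nonempty) with hLdef
  have hch : ∀ t, ∃ z u p, t ∈ L → z ∈ t ∧ u ∈ att h M B z ∧ p ∈ t ∧ p ≠ z := by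
    intro t
    by_cases ht : t ∈ L
    · obtain ⟨htM, z, hz, u, hu⟩ := mem_filter.1 ht
      have hc : 0 < (t.erase z).card := by
        rw [card_erase_of_mem hz, h.three t (hM.sub htM)]
        norm_num
      obtain ⟨p, hp⟩ := card_pos.1 hc
      obtain ⟨hp1, hp2⟩ := mem_erase.1 hp
      exact ⟨z, u, p, fun _ => ⟨hz, hu, hp2, hp1⟩⟩
    · obtain ⟨v⟩ := hV
      exact ⟨v, v, v, fun g => absurd g ht⟩
  choose z u p hzup using hch
  have hLM : ∀ t ∈ L, t ∈ M := fun t ht => (mem_filter.1 ht).1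
  have hinj : Set.InjOn p (L : Set (Finset V)) := by
    intro t ht s hs he
    have h3 := (hzup t ht).2.2.1
    have h4 := (hzup s hs).2.2.1
    rw [he] at h3
    exact same_triple hM (hLM t ht) (hLM s hs) h3 h4
  have hτ : ∀ x, ∃ t, x ∈ L.image p → t ∈ L ∧ p t = x := by
    intro x
    by_cases hx : x ∈ L.image p
    · obtain ⟨t, ht, he⟩ := mem_image.1 hx
      exact ⟨t, fun _ => ⟨ht, he⟩⟩
    · exact ⟨∅, fun g => absurd g hx⟩
  choose τ hτ using hτ
  have huniq : ∀ x ∈ L.image p, ∀ y ∈ L.image p, z (τ x) = z (τ y) → x = y := by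
    intro x hx y hy he
    obtain ⟨hx1, hx2⟩ := hτ x hx
    obtain ⟨hy1, hy2⟩ := hτ y hy
    have h3 := (hzup _ hx1).1
    have h4 := (hzup _ hy1).1
    rw [he] at h3
    have h5 := same_triple hM (hLM _ hx1) (hLM _ hy1) h3 h4
    rw [← hx2, ← hy2, h5]
  have hzu : ∀ x ∈ L.image p, z (τ x) ≠ u (τ x) := by
    intro x hx
    obtain ⟨hx1, -⟩ := hτ x hx
    exact ((mem_att h).1 (hzup _ hx1).2.1).2.1.symm
  refine ⟨L.image p, fun x => τ x ∪ {u (τ x)} ∪ home M (th h (z (τ x)) (u (τ x))), ?_, ?_, ?_⟩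
  · rw [card_image_of_injOn hinj]
    exact hL
  · intro x hx
    obtain ⟨hx1, hx2⟩ := hτ x hx
    obtain ⟨e1, e2, e3, e4⟩ := hzup _ hx1
    rw [hx2] at e3 e4
    exact ⟨τ x, hLM _ hx1, z (τ x), e1, u (τ x), e2, e3, e4, rfl⟩
  · intro f
    have hsub : (L.image p).filter (fun x => f ∈ τ x ∪ {u (τ x)} ∪
        home M (th h (z (τ x)) (u (τ x)))) ⊆
        ((L.image p).filter (fun x => f ∈ τ x)) ∪ ((L.image p).filter (fun x => u (τ x) = f)) ∪
        ((L.image p).filter (fun x => f ∈ home M (th h (z (τ x)) (u (τ x))))) := by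
      intro x hx
      simp only [mem_filter, mem_union, mem_singleton] at hx ⊢
      obtain ⟨hx, (h3 | h3) | h3⟩ := hx
      · exact Or.inl (Or.inl ⟨hx, h3⟩)
      · exact Or.inl (Or.inr ⟨hx, h3.symm⟩)
      · exact Or.inr ⟨hx, h3⟩
    have c1 : ((L.image p).filter (fun x => f ∈ τ x)).card ≤ 1 := by
      rw [Finset.card_le_one]
      intro x hx y hy
      obtain ⟨hx1, hx2⟩ := mem_filter.1 hx
      obtain ⟨hy1, hy2⟩ := mem_filter.1 hy
      apply huniq x hx1 y hy1
      rw [same_triple hM (hLM _ (hτ x hx1).1) (hLM _ (hτ y hy1).1) hx2 hy2]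
    have c2 : ((L.image p).filter (fun x => u (τ x) = f)).card ≤ B.card := by
      apply Finset.card_le_card_of_injOn (fun x => th h (z (τ x)) (u (τ x)))
      · intro x hx
        obtain ⟨hx1, -⟩ := mem_filter.1 (mem_coe.1 hx)
        exact ((mem_att h).1 (hzup _ (hτ x hx1).1).2.1).2.2
      · intro x hx y hy he
        obtain ⟨hx1, hx2⟩ := mem_filter.1 (mem_coe.1 hx)
        obtain ⟨hy1, hy2⟩ := mem_filter.1 (mem_coe.1 hy)
        apply huniq x hx1 y hy1
        have e1 := (th_left h (hzu x hx1) rfl).2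
        have e2 := (th_left h (hzu y hy1) rfl).2
        have he' : th h (z (τ x)) (u (τ x)) = th h (z (τ y)) (u (τ y)) := he
        rw [← e1, ← e2, ← he', hx2, hy2]
    have c3 : ((L.image p).filter (fun x => f ∈ home M (th h (z (τ x)) (u (τ x))))).card ≤
        3 * (unc M).card := by
      have hc : ((home M f) ×ˢ (unc M)).card ≤ 3 * (unc M).card := by
        rw [card_product]
        exact Nat.mul_le_mul_right _ (home_card h hM f)
      refine le_trans ?_ hc
      apply Finset.card_le_card_of_injOn (fun x => (th h (z (τ x)) (u (τ x)), u (τ x)))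
      · intro x hx
        obtain ⟨hx1, hx2⟩ := mem_filter.1 (mem_coe.1 hx)
        refine mem_coe.2 (mem_product.2 ⟨home_symm hM hx2, ?_⟩)
        exact ((mem_att h).1 (hzup _ (hτ x hx1).1).2.1).1
      · intro x hx y hy he
        obtain ⟨hx1, hx2⟩ := mem_filter.1 (mem_coe.1 hx)
        obtain ⟨hy1, hy2⟩ := mem_filter.1 (mem_coe.1 hy)
        apply huniq x hx1 y hy1
        have e1 := (th_left h (hzu x hx1) rfl).2
        have e2 := (th_left h (hzu y hy1) rfl).2
        simp only [Prod.mk.injEq] at he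
        rw [← e1, ← e2, ← he.1, ← he.2]
    have c0 := card_le_card hsub
    have c4 := card_union_le (((L.image p).filter (fun x => f ∈ τ x)) ∪
      ((L.image p).filter (fun x => u (τ x) = f)))
      ((L.image p).filter (fun x => f ∈ home M (th h (z (τ x)) (u (τ x)))))
    have c5 := card_union_le ((L.image p).filter (fun x => f ∈ τ x))
      ((L.image p).filter (fun x => u (τ x) = f))
    exact c0.trans (c4.trans (by omega))

end Pool.Agent.H98.SG
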