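import Pool.Agent.H98.SG.Att

/-! Counting the pairs (releasable point, uncovered point) by their third point. -/

set_option autoImplicit false
set_option linter.unusedSectionVars false

namespace Pool.Agent.H98.SG

open Finset Pool.Agent.H98.ST

variable {V : Type} [Fintype V] [DecidableEq V] {S M : Finset (Finset V)}

theorem sum_att (h : IsSTS S) (B : Finset V) :
    B.card * ((unc M).card - 1) ≤ ∑ z, (att h M B z).card := by
  classical
  have h1 : ∑ z, (att h M B z).card = ∑ b ∈ B, ((unc M).filter fun u => b ≠ u).card := by
    unfold att
    simp_rw [Finset.card_filter]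
    rw [Finset.sum_comm, Finset.sum_comm (s := B)]
    refine Finset.sum_congr rfl fun u _ => ?_
    rw [← Finset.card_filter, ← Finset.card_filter]
    apply Finset.card_bij (fun z _ => th h z u)
    · intro z hz
      rw [mem_filter] at hz
      rw [mem_filter]
      have hs := th_spec h hz.2.1.symm
      exact ⟨hz.2.2, hs.2.1⟩
    · intro z hz z' hz' he
      rw [mem_filter] at hz hz'
      have e1 : th h u (th h u z) = z := th_th h hz.2.1
      have e2 : th h u (th h u z') = z' := th_th h hz'.2.1
      have he' : th h z u = th h z' u := he
      rw [← th_comm h hz.2.1.symm, ← th_comm h hz'.2.1.symm] at he'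
      rw [← e1, ← e2, he']
    · intro b hb
      rw [mem_filter] at hb
      have hs := th_spec h hb.2
      refine ⟨th h b u, ?_, ?_⟩
      · rw [mem_filter]
        refine ⟨mem_univ _, hs.2.1.symm, ?_⟩
        have e : th h (th h b u) u = b := by
          rw [th_comm h hs.2.1.symm, th_comm h hb.2.symm, th_th h hb.2.symm]
        rw [e]
        exact hb.1
      · rw [th_comm h hs.2.1.symm, th_comm h hb.2.symm, th_th h hb.2.symm]
  rw [h1, ← smul_eq_mul]
  apply Finset.card_nsmul_le_sum
  intro b _
  have h3 : (unc M).erase b ⊆ (unc M).filter fun u => b ≠ u := by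
    intro u hu
    rw [mem_erase] at hu
    rw [mem_filter]
    exact ⟨hu.2, fun h => hu.1 h.symm⟩
  exact (Finset.pred_card_le_card_erase).trans (Finset.card_le_card h3)

end Pool.Agent.H98.SG
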