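import Pool.Agent.H98.SG.Root

/-! Steiner triple systems: the exponent `1 / 3`, recursion. -/

set_option autoImplicit false
set_option linter.unusedSectionVars false

namespace Pool.Agent.H98.SG

open Finset Pool.Agent.H98.ST

variable {V : Type} [Fintype V] [DecidableEq V] {S M : Finset (Finset V)}

/-- The step at a level with few pairs at light triples. -/
theorem stepq (h : IsSTS S) (hM : MaxM S M) {K s K' q : ℕ} (hs1 : 1 ≤ s) (hK : K' + 4 ≤ K)
    (hq : 3 * K' + 1 ≤ q) {B : Finset V} (hB : ∀ b ∈ B, Rel S M K s b) :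
    ∃ B' : Finset V, (∀ b ∈ B', Rel S M K' (s + 4) b) ∧ 2 * hv h M B q ≤ B'.card := by
  classical
  refine ⟨univ.filter (fun b => ∃ t ∈ M, ∃ z ∈ t, b ∈ t ∧ b ≠ z ∧
      q ≤ (att h M B z).card), ?_, ?_⟩
  · intro b hb
    obtain ⟨-, t, ht, z, hz, hbt, hbz, hqz⟩ := mem_filter.1 hb
    exact release2 h hM hs1 hK hB ht hz hbt hbz (hq.trans hqz)
  · rw [hv_eq]
    refine companions h hM (filter_subset _ _) ?_
    intro t ht
    obtain ⟨htM, z, hz, hqz⟩ := mem_filter.1 ht
    refine ⟨z, hz, fun b hb => ?_⟩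
    obtain ⟨hbz, hbt⟩ := mem_erase.1 hb
    exact mem_filter.2 ⟨mem_univ _, t, htM, z, hz, hbt, hbz, hqz⟩

/-- The statement of the light step. -/
def LightStep (S M : Finset (Finset V)) (h : IsSTS S) : Prop :=
  ∀ (K s K2 q : ℕ) (B : Finset V), (∀ b ∈ B, Rel S M K s b) → 1 ≤ s → K2 + s + 14 ≤ K → 18 ≤ q →
    (unc M).card ≤ B.card → 4 * hv h M B q ≤ 3 * B.card → 1568 * q ≤ (unc M).card →
    1408 * (K2 + 1) * q ^ 2 * Fintype.card V ≤ (unc M).card ^ 3 →
    ∃ B' : Finset V, (∀ b ∈ B', Rel S M K2 (2 * s + 13) b) ∧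
      B.card * (unc M).card ≤ 48 * q * B'.card

theorem card_le_n (B : Finset V) : B.card ≤ Fintype.card V := by
  rw [← card_univ]; exact card_le_card (subset_univ B)

/-- After the light step. -/
theorem phase1 (h : IsSTS S) (hM : MaxM S M) (hL : LightStep S M h) {q : ℕ} (hq : 18 ≤ q)
    (hd : 1568 * q ≤ (unc M).card) (hd3 : 1408 * q ^ 2 * Fintype.card V ≤ (unc M).card ^ 3) :
    ∀ R s : ℕ, 1 ≤ s → 3 * (s + 14 + 8 * R) + 1 ≤ q → ∀ B : Finset V,
    (∀ b ∈ B, Rel S M (s + 14 + 8 * R) s b) → (unc M).card ≤ B.card →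
    2 ^ R * Fintype.card V < 3 ^ R * B.card →
    48 * q * Fintype.card V < B.card * (unc M).card → False := by
  intro R
  induction R with
  | zero =>
    intro s _ _ B _ _ h1 _
    have := card_le_n B
    omega
  | succ R ih =>
    intro s hs1 hqs B hB hdB h1 h2
    by_cases hl : 4 * hv h M B q ≤ 3 * B.card
    · obtain ⟨B', -, hc⟩ := hL (s + 14 + 8 * (R + 1)) s 0 q B hB hs1 (by omega) hq hdB hl hd
        (by simpa using hd3)
      have h3 := card_le_n B'
      have h4 : 48 * q * B'.card ≤ 48 * q * Fintype.card V := Nat.mul_le_mul_left _ h3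
      omega
    · push Not at hl
      obtain ⟨B', hB', hc⟩ := stepq h hM (K := s + 14 + 8 * (R + 1)) (K' := (s + 4) + 14 + 8 * R)
        (q := q) hs1 (by omega) (by omega) hB
      have h3 : 3 * B.card ≤ 2 * B'.card := by omega
      refine ih (s + 4) (by omega) (by omega) B' hB' (by omega) ?_ ?_
      · have h4 : 3 ^ R * (3 * B.card) ≤ 3 ^ R * (2 * B'.card) := Nat.mul_le_mul_left _ h3
        have h5 : 2 * (2 ^ R * Fintype.card V) < 2 * (3 ^ R * B'.card) := by
          calc 2 * (2 ^ R * Fintype.card V) = 2 ^ (R + 1) * Fintype.card V := by ring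
            _ < 3 ^ (R + 1) * B.card := h1
            _ = 3 ^ R * (3 * B.card) := by ring
            _ ≤ 3 ^ R * (2 * B'.card) := h4
            _ = 2 * (3 ^ R * B'.card) := by ring
        omega
      · have h4 : B.card * (unc M).card ≤ B'.card * (unc M).card :=
          Nat.mul_le_mul_right _ (by omega)
        omega

/-- Before the light step. -/
theorem phase0 (h : IsSTS S) (hM : MaxM S M) (hL : LightStep S M h) {q : ℕ} (hq : 18 ≤ q)
    (hd : 1568 * q ≤ (unc M).card) (hd3 : 470 * q ^ 3 * Fintype.card V ≤ (unc M).card ^ 3)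
    (hn : 0 < Fintype.card V) :
    ∀ R s : ℕ, 1 ≤ s → 3 * (3 * s + 41 + 16 * R) + 1 ≤ q → ∀ B : Finset V,
    (∀ b ∈ B, Rel S M (3 * s + 41 + 16 * R) s b) → (unc M).card ≤ B.card →
    2 ^ R * Fintype.card V < 3 ^ R * B.card → False := by
  have hq0 : 0 < q := by omega
  have hd3' : 1408 * q ^ 2 * Fintype.card V ≤ (unc M).card ^ 3 := by
    refine le_trans (Nat.mul_le_mul_right _ ?_) hd3
    calc 1408 * q ^ 2 ≤ 470 * q * q ^ 2 := Nat.mul_le_mul_right _ (by omega)
      _ = 470 * q ^ 3 := by ring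
  intro R
  induction R with
  | zero =>
    intro s _ _ B _ _ h1
    have := card_le_n B
    omega
  | succ R ih =>
    intro s hs1 hqs B hB hdB h1
    by_cases hl : 4 * hv h M B q ≤ 3 * B.card
    · -- the light step
      obtain ⟨B', hB', hc⟩ := hL (3 * s + 41 + 16 * (R + 1)) s
        ((2 * s + 13) + 14 + 8 * (R + 1)) q B hB hs1 (by omega) hq hdB hl hd
        (by
          refine le_trans (Nat.mul_le_mul_right _ ?_) hd3
          have h3 : 3 * ((2 * s + 13) + 14 + 8 * (R + 1) + 1) ≤ q := by omega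
          have h4 : 1408 * ((2 * s + 13) + 14 + 8 * (R + 1) + 1) ≤ 470 * q := by omega
          calc 1408 * ((2 * s + 13) + 14 + 8 * (R + 1) + 1) * q ^ 2 ≤ 470 * q * q ^ 2 :=
                Nat.mul_le_mul_right _ h4
            _ = 470 * q ^ 3 := by ring)
      -- the new set is larger than the old one
      have hge : 32 * B.card ≤ B'.card := by
        have h5 : B.card * (1568 * q) ≤ 48 * q * B'.card := (Nat.mul_le_mul_left _ hd).trans hc
        have h6 : (48 * q) * (32 * B.card) ≤ (48 * q) * B'.card := by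
          refine le_trans ?_ h5
          calc (48 * q) * (32 * B.card) = B.card * (1536 * q) := by ring
            _ ≤ B.card * (1568 * q) := Nat.mul_le_mul_left _ (by omega)
        exact Nat.le_of_mul_le_mul_left h6 (by omega)
      refine phase1 h hM hL hq hd hd3' (R + 1) (2 * s + 13) (by omega) (by omega) B' hB'
        (by omega) ?_ ?_
      · refine lt_of_lt_of_le h1 (Nat.mul_le_mul_left _ (by omega))
      · -- 48 q n < |B'| d
        have h5 : (unc M).card * (unc M).card ≤ 48 * q * B'.card :=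
          (Nat.mul_le_mul_right _ hdB).trans hc
        have h6 : (unc M).card ^ 3 ≤ 48 * q * (B'.card * (unc M).card) := by
          calc (unc M).card ^ 3 = (unc M).card * (unc M).card * (unc M).card := by ring
            _ ≤ 48 * q * B'.card * (unc M).card := Nat.mul_le_mul_right _ h5
            _ = 48 * q * (B'.card * (unc M).card) := by ring
        have h7 : (48 * q) * (48 * q * Fintype.card V) < (48 * q) * (B'.card * (unc M).card) := by
          refine lt_of_lt_of_le ?_ (hd3.trans h6)
          have h8 : 2304 < 470 * q := by omega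
          calc (48 * q) * (48 * q * Fintype.card V) = 2304 * (q ^ 2 * Fintype.card V) := by ring
            _ < 470 * q * (q ^ 2 * Fintype.card V) :=
                Nat.mul_lt_mul_of_pos_right h8 (by positivity)
            _ = 470 * q ^ 3 * Fintype.card V := by ring
        exact lt_of_mul_lt_mul_left h7 (Nat.zero_le _)
    · push Not at hl
      obtain ⟨B', hB', hc⟩ := stepq h hM (K := 3 * s + 41 + 16 * (R + 1))
        (K' := 3 * (s + 4) + 41 + 16 * R) (q := q) hs1 (by omega) (by omega) hB
      have h3 : 3 * B.card ≤ 2 * B'.card := by omega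
      refine ih (s + 4) (by omega) (by omega) B' hB' (by omega) ?_
      have h4 : 3 ^ R * (3 * B.card) ≤ 3 ^ R * (2 * B'.card) := Nat.mul_le_mul_left _ h3
      have h5 : 2 * (2 ^ R * Fintype.card V) < 2 * (3 ^ R * B'.card) := by
        calc 2 * (2 ^ R * Fintype.card V) = 2 ^ (R + 1) * Fintype.card V := by ring
          _ < 3 ^ (R + 1) * B.card := h1
          _ = 3 ^ R * (3 * B.card) := by ring
          _ ≤ 3 ^ R * (2 * B'.card) := h4
          _ = 2 * (3 ^ R * B'.card) := by ring
      omega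

/-- For every `J` with `2 ^ J n < 3 ^ J d` and `1568 (48 J + 133) ≤ d` we have
`d ^ 3 < 470 (48 J + 133) ^ 3 n`. -/
theorem cube (h : IsSTS S) (hM : MaxM S M) (hL : LightStep S M h) {J : ℕ}
    (hJ : 2 ^ J * Fintype.card V < 3 ^ J * (unc M).card) (hd : 1568 * (48 * J + 133) ≤ (unc M).card) :
    (unc M).card ^ 3 < 470 * (48 * J + 133) ^ 3 * Fintype.card V := by
  by_contra hc
  push Not at hc
  have hu := unc_card h hM
  refine phase0 h hM hL (q := 48 * J + 133) (by omega) hd hc (by omega) J 1 le_rfl (by omega)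
    (unc M) (fun b hb => rel_unc hb _ _) le_rfl hJ

end Pool.Agent.H98.SG
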