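import Mathlib

/-! The numerical ending: `d ≤ 630 n ^ (1/3) log n`. -/

set_option autoImplicit false

namespace Pool.Agent.H98.SG

theorem exp_six_le : Real.exp 6 ≤ 404 := by
  have h := Real.exp_one_lt_d9
  have h0 := Real.exp_pos 1
  have e : Real.exp 6 = Real.exp 1 ^ 6 := by
    rw [← Real.exp_nat_mul]; norm_num
  rw [e]
  calc Real.exp 1 ^ 6 ≤ (2.7182818286 : ℝ) ^ 6 := pow_le_pow_left₀ h0.le h.le 6
    _ ≤ 404 := by norm_num

theorem exp_eight_le : Real.exp 8 ≤ 2982 := by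
  have h := Real.exp_one_lt_d9
  have h0 := Real.exp_pos 1
  have e : Real.exp 8 = Real.exp 1 ^ 8 := by
    rw [← Real.exp_nat_mul]; norm_num
  rw [e]
  calc Real.exp 1 ^ 8 ≤ (2.7182818286 : ℝ) ^ 8 := pow_le_pow_left₀ h0.le h.le 8
    _ ≤ 2982 := by norm_num

theorem two_le_five_log : (2 : ℝ) ≤ 5 * Real.log (3 / 2) := by
  have h := Real.exp_one_lt_d9
  have h0 := Real.exp_pos 1
  have e : Real.exp 2 = Real.exp 1 ^ 2 := by
    rw [← Real.exp_nat_mul]; norm_num
  have h1 : Real.exp 2 ≤ (3 / 2 : ℝ) ^ 5 := by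
    rw [e]
    calc Real.exp 1 ^ 2 ≤ (2.7182818286 : ℝ) ^ 2 := pow_le_pow_left₀ h0.le h.le 2
      _ ≤ (3 / 2 : ℝ) ^ 5 := by norm_num
  have h2 := (Real.le_log_iff_exp_le (by positivity)).2 h1
  rw [Real.log_pow] at h2
  exact_mod_cast h2

/-- the polynomial inequality of the first case -/
theorem case_poly {y s : ℝ} (hs : 0 ≤ s) (hy : y = s ^ 2) :
    1568 * (80 / 630 * y - 779) ≤ s ^ 3 := by
  have h1 : 0 ≤ (s - 133) ^ 2 * (s + 133 / 2) := by positivity
  rw [hy]
  nlinarith [sq_nonneg s]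

theorem final_cube (n d : ℕ) (hn : 2 ≤ n) (hd : d ≤ n)
    (h : ∀ J : ℕ, 2 ^ J * n < 3 ^ J * d → 1568 * (48 * J + 133) ≤ d →
      d ^ 3 < 470 * (48 * J + 133) ^ 3 * n) :
    (d : ℝ) ≤ 630 * (n : ℝ) ^ ((1 : ℝ) / 3) * Real.log n := by
  by_contra hc
  push Not at hc
  have hn2 : (2 : ℝ) ≤ n := by exact_mod_cast hn
  have hn0 : (0 : ℝ) < n := by linarith
  set x : ℝ := (n : ℝ) ^ ((1 : ℝ) / 3) with hx
  have hx0 : 0 < x := Real.rpow_pos_of_pos hn0 _
  have hx3 : x ^ 3 = n := by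
    rw [hx, ← Real.rpow_natCast, ← Real.rpow_mul hn0.le]
    norm_num
  set L : ℝ := Real.log n with hL
  have hL2 : 0.69 ≤ L := by
    have h1 : Real.log 2 ≤ L := Real.log_le_log (by norm_num) hn2
    have h2 := Real.log_two_gt_d9
    linarith
  have hL0 : 0 < L := by linarith
  have hLx : L = 3 * Real.log x := by
    rw [hL, ← hx3, Real.log_pow]; norm_num
  set y : ℝ := 630 * L with hy
  have hy1 : 434 ≤ y := by rw [hy]; linarith
  have hy0 : 0 < y := by linarith
  have hdy : x * y < d := by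
    have : x * y = 630 * x * L := by rw [hy]; ring
    rw [this]; exact hc
  have hxy0 : 0 < x * y := mul_pos hx0 hy0
  have hd0 : (0 : ℝ) < d := hxy0.trans hdy
  have hdn : (d : ℝ) ≤ n := by exact_mod_cast hd
  -- x ^ 2 > y
  have hxy : y < x ^ 2 := by
    have h1 : x * y < x * x ^ 2 := by
      calc x * y < d := hdy
        _ ≤ n := hdn
        _ = x * x ^ 2 := by rw [← hx3]; ring
    exact lt_of_mul_lt_mul_left h1 hx0.le
  set r : ℝ := n / d with hr
  have hr1 : 1 ≤ r := by rw [hr, le_div_iff₀ hd0]; linarith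
  have hr0 : 0 < r := by linarith
  have hlr0 : 0 ≤ Real.log r := Real.log_nonneg hr1
  have hlr : Real.log r ≤ 2 / 3 * L - Real.log y := by
    have h1 : r ≤ x ^ 2 / y := by
      rw [hr, div_le_div_iff₀ hd0 hy0, ← hx3]
      have := mul_le_mul_of_nonneg_left hdy.le (sq_nonneg x)
      calc x ^ 3 * y = x ^ 2 * (x * y) := by ring
        _ ≤ x ^ 2 * d := this
    have h2 := Real.log_le_log hr0 h1
    have h3 : Real.log (x ^ 2 / y) = 2 * Real.log x - Real.log y := by
      rw [Real.log_div (by positivity) (by positivity), Real.log_pow]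
      norm_num
    rw [h3] at h2
    rw [hLx]; linarith
  set J : ℕ := ⌊5 / 2 * Real.log r⌋₊ + 1 with hJ
  have hJ1 : 5 / 2 * Real.log r < J := by
    rw [hJ]; push_cast; exact Nat.lt_floor_add_one _
  have hJ2 : (J : ℝ) ≤ 5 / 2 * Real.log r + 1 := by
    rw [hJ]; push_cast
    have := Nat.floor_le (show 0 ≤ 5 / 2 * Real.log r by positivity)
    linarith
  have hJ0 : (0 : ℝ) < J := by rw [hJ]; positivity
  have hpow : r < (3 / 2 : ℝ) ^ J := by
    rw [← Real.log_lt_log_iff hr0 (by positivity), Real.log_pow]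
    have h5 := two_le_five_log
    have : 2 * (J : ℝ) ≤ 5 * Real.log (3 / 2) * J := mul_le_mul_of_nonneg_right h5 hJ0.le
    linarith
  have hhyp : 2 ^ J * n < 3 ^ J * d := by
    have h1 : (n : ℝ) < (3 / 2 : ℝ) ^ J * d := by
      rw [hr, div_lt_iff₀ hd0] at hpow
      exact hpow
    have h2 : ((2 ^ J * n : ℕ) : ℝ) < ((3 ^ J * d : ℕ) : ℝ) := by
      push_cast
      have h3 : (0 : ℝ) < 2 ^ J := by positivity
      calc (2 : ℝ) ^ J * n < 2 ^ J * ((3 / 2 : ℝ) ^ J * d) := mul_lt_mul_of_pos_left h1 h3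
        _ = 3 ^ J * d := by
          rw [← mul_assoc, ← mul_pow]; norm_num
    exact_mod_cast h2
  have hly6 : 6 ≤ Real.log y := by
    rw [Real.le_log_iff_exp_le hy0]
    have := exp_six_le
    linarith
  have hQ : 48 * (J : ℝ) + 133 ≤ 80 * L - 120 * Real.log y + 181 := by linarith
  have hL' : L = y / 630 := by rw [hy]; ring
  -- first case
  have hA : 1568 * (48 * J + 133) ≤ d := by
    have h1 : (1568 : ℝ) * (48 * J + 133) ≤ x * y := by
      set s : ℝ := √y with hs
      have hs0 : 0 ≤ s := Real.sqrt_nonneg _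
      have hs2 : y = s ^ 2 := (Real.sq_sqrt hy0.le).symm
      have hsx : s ≤ x := by
        rw [hs, Real.sqrt_le_left hx0.le]
        exact hxy.le
      have hs3 : s ^ 3 ≤ x * y := by
        calc s ^ 3 = s * s ^ 2 := by ring
          _ = s * y := by rw [← hs2]
          _ ≤ x * y := mul_le_mul_of_nonneg_right hsx hy0.le
      by_cases h4 : y ≤ 4000
      · have : (1568 : ℝ) * (48 * J + 133) ≤ 0 := by
          rw [hL'] at hQ
          linarith
        linarith
      · push Not at h4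
        have hly8 : 8 ≤ Real.log y := by
          rw [Real.le_log_iff_exp_le hy0]
          have := exp_eight_le
          linarith
        have h5 : 48 * (J : ℝ) + 133 ≤ 80 / 630 * y - 779 := by
          rw [hL'] at hQ
          linarith
        have h6 := case_poly hs0 hs2
        linarith
    have h2 : ((1568 * (48 * J + 133) : ℕ) : ℝ) ≤ (d : ℝ) := by
      push_cast
      linarith
    exact_mod_cast h2
  have hB := h J hhyp hA
  have hB' : (d : ℝ) ^ 3 < 470 * (48 * J + 133) ^ 3 * n := by exact_mod_cast hB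
  have h48 : 48 * (J : ℝ) + 133 ≤ 80 * L := by linarith
  have h480 : (0 : ℝ) ≤ 48 * J + 133 := by positivity
  have h7 : (48 * (J : ℝ) + 133) ^ 3 ≤ (80 * L) ^ 3 := pow_le_pow_left₀ h480 h48 3
  have h8 : (x * y) ^ 3 < (d : ℝ) ^ 3 := pow_lt_pow_left₀ hdy hxy0.le (by norm_num)
  have h9 : (d : ℝ) ^ 3 < 470 * (80 * L) ^ 3 * x ^ 3 := by
    rw [← hx3] at hB'
    refine hB'.trans_le ?_
    have : 0 < x ^ 3 := by positivity
    gcongr
  have h10 : 470 * (80 * L) ^ 3 * x ^ 3 ≤ (x * y) ^ 3 := by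
    rw [hy]
    have h11 : 0 < x ^ 3 * L ^ 3 := by positivity
    nlinarith
  linarith

end Pool.Agent.H98.SG
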