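import Pool.Agent.H98.SG.Step

set_option autoImplicit false
set_option linter.unusedSectionVars false

namespace Pool.Agent.H98.SG

open Finset Pool.Agent.H98.ST

variable {V : Type} [Fintype V] [DecidableEq V] {S M : Finset (Finset V)}

theorem one_heavy (h : IsSTS S) (hM : MaxM S M) {K s : ℕ} (hK : s + 8 ≤ K) {B : Finset V}
    (hB : ∀ b ∈ B, Rel S M K s b) {t : Finset V} (ht : t ∈ M) {z₁ z₂ : V} (hz1 : z₁ ∈ t)
    (hz2 : z₂ ∈ t) (hz : z₁ ≠ z₂) (h7 : 7 ≤ (att h M B z₁).card) : (att h M B z₂).card = 0 := by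
  by_contra hne
  obtain ⟨u₂, hu2⟩ := card_pos.1 (Nat.pos_of_ne_zero hne)
  obtain ⟨hU2, huz2, hbB2⟩ := (mem_att h).1 hu2
  obtain ⟨hb2z, hb2u, hT2'⟩ := th_spec h huz2.symm
  have hbt2 := third_notMem h hM ht hz2 hU2
  set b₂ := th h z₂ u₂ with hb2def
  have hT2 : ({z₂, b₂, u₂} : Finset V) ∈ S := by
    have : ({z₂, b₂, u₂} : Finset V) = {z₂, u₂, b₂} := by
      ext x; simp only [mem_insert, mem_singleton]; tauto
    rw [this]; exact hT2'
  have hex : ∃ u ∈ att h M B z₁, u ≠ u₂ ∧ u ≠ b₂ ∧ th h z₁ u ≠ u₂ ∧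
      th h z₁ u ∉ home M b₂ := by
    by_contra hno
    push Not at hno
    have hsub : att h M B z₁ ⊆ {u₂, b₂, th h z₁ u₂} ∪ (home M b₂).image (fun w => th h z₁ w) := by
      intro u hu
      have hzu : z₁ ≠ u := ((mem_att h).1 hu).2.1.symm
      simp only [mem_union, mem_insert, mem_singleton, mem_image]
      by_cases h1 : u = u₂
      · exact Or.inl (Or.inl h1)
      · by_cases h2 : u = b₂
        · exact Or.inl (Or.inr (Or.inl h2))
        · by_cases h3 : th h z₁ u = u₂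
          · refine Or.inl (Or.inr (Or.inr ?_))
            rw [← h3, th_th h hzu]
          · exact Or.inr ⟨th h z₁ u, hno u hu h1 h2 h3, th_th h hzu⟩
    have h1 := card_le_card hsub
    have h2 := card_union_le {u₂, b₂, th h z₁ u₂} ((home M b₂).image (fun w => th h z₁ w))
    have h3 : ({u₂, b₂, th h z₁ u₂} : Finset V).card ≤ 3 := card_le_three
    have h4 : ((home M b₂).image (fun w => th h z₁ w)).card ≤ 3 :=
      card_image_le.trans (home_card h hM b₂)
    omega
  obtain ⟨u₁, hu1, h12, h1b, hbu, hhome⟩ := hex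
  obtain ⟨hU1, huz1, hbB1⟩ := (mem_att h).1 hu1
  obtain ⟨hb1z, hb1u, hT1'⟩ := th_spec h huz1.symm
  have hbt1 := third_notMem h hM ht hz1 hU1
  set b₁ := th h z₁ u₁ with hb1def
  have hT1 : ({z₁, b₁, u₁} : Finset V) ∈ S := by
    have : ({z₁, b₁, u₁} : Finset V) = {z₁, u₁, b₁} := by
      ext x; simp only [mem_insert, mem_singleton]; tauto
    rw [this]; exact hT1'
  exact no_two_att h hM hK ht hz1 hz2 hz (hB b₁ hbB1) (hB b₂ hbB2)
    (fun hx => hhome (home_symm hM hx)) hU1 hU2 h12 hb1u.symm hb2u.symm h1b hbu.symm hbt1 hbt2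
    hT1 hT2

theorem companions (h : IsSTS S) (hM : MaxM S M) {H : Finset (Finset V)} (hH : H ⊆ M)
    {B' : Finset V} (hB : ∀ t ∈ H, ∃ z ∈ t, t.erase z ⊆ B') : 2 * H.card ≤ B'.card := by
  classical
  have hd : ∀ t ∈ H, ∀ s ∈ H, t ≠ s → Disjoint (t ∩ B') (s ∩ B') := fun t ht s hs hts =>
    (hM.dis t (hH ht) s (hH hs) hts).mono inter_subset_left inter_subset_left
  have h1 : (H.biUnion (fun t => t ∩ B')).card = ∑ t ∈ H, (t ∩ B').card :=
    card_biUnion (fun t ht s hs hts => hd t ht s hs hts)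
  have h2 : ∑ t ∈ H, 2 ≤ ∑ t ∈ H, (t ∩ B').card := by
    apply sum_le_sum
    intro t ht
    obtain ⟨z, hz, hsub⟩ := hB t ht
    have h3 : t.erase z ⊆ t ∩ B' := subset_inter (erase_subset _ _) hsub
    have h4 := card_le_card h3
    rw [card_erase_of_mem hz, h.three t (hM.sub (hH ht))] at h4
    exact h4
  have h5 : (H.biUnion (fun t => t ∩ B')).card ≤ B'.card := by
    apply card_le_card
    intro x hx
    obtain ⟨t, -, hxt⟩ := mem_biUnion.1 hx
    exact (mem_inter.1 hxt).2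
  rw [sum_const, smul_eq_mul] at h2
  omega

end Pool.Agent.H98.SG
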