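import Pool.Agent.H98.SG.Count

/-! The pairs (releasable point, uncovered point), counted by their third point, in layers. -/

set_option autoImplicit false
set_option linter.unusedSectionVars false

namespace Pool.Agent.H98.SG

open Finset Pool.Agent.H98.ST

variable {V : Type} [Fintype V] [DecidableEq V] {S M : Finset (Finset V)}

/-- The number of triples of `M` with a point at which at least `x` pairs are attached. -/
noncomputable def hv (h : IsSTS S) (M : Finset (Finset V)) (B : Finset V) (x : ℕ) : ℕ := by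
  classical
  exact (M.filter (fun t => ∃ z ∈ t, x ≤ (att h M B z).card)).card

theorem hv_eq (h : IsSTS S) (M : Finset (Finset V)) (B : Finset V) (x : ℕ)
    [DecidablePred (fun t : Finset V => ∃ z ∈ t, x ≤ (att h M B z).card)] :
    hv h M B x = (M.filter (fun t => ∃ z ∈ t, x ≤ (att h M B z).card)).card := by
  unfold hv
  congr!

theorem cake_aux (q a : ℕ) (R : ℕ) :
    min a (q + 24 * R) ≤ q + ∑ i ∈ range R, (if q + 24 * i ≤ a then 24 else 0) := by
  induction R with
  | zero => simp
  | succ R ih =>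
    rw [Finset.sum_range_succ]
    split_ifs with g
    · omega
    · omega

theorem cake (q a d : ℕ) (had : a ≤ d) (R : ℕ) :
    a ≤ q + ∑ i ∈ range R, (if q + 24 * i ≤ a then 24 else 0) +
      (if q + 24 * R ≤ a then d else 0) := by
  have := cake_aux q a R
  split_ifs with g
  · omega
  · omega

theorem sum_split (h : IsSTS S) (hM : MaxM S M) {B : Finset V}
    (h2 : ∀ b ∈ B, ∀ u ∈ unc M, ∀ v ∈ unc M, u ≠ b → v ≠ b → ({b, u, v} : Finset V) ∉ S) :
    ∑ z, (att h M B z).card = ∑ t ∈ M, ∑ z ∈ t, (att h M B z).card := by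
  classical
  have e1 : ∑ z, (att h M B z).card = ∑ z ∈ cov M, (att h M B z).card := by
    symm
    apply Finset.sum_subset (Finset.subset_univ _)
    intro z _ hz
    rw [Finset.card_eq_zero, att, Finset.filter_eq_empty_iff]
    rintro u hu ⟨huz, hb⟩
    have hsp := th_spec h huz.symm
    refine h2 _ hb u hu z (mem_unc.2 hz) hsp.2.1.symm hsp.1.symm ?_
    have e : ({th h z u, u, z} : Finset V) = {z, u, th h z u} := by
      ext w; simp only [mem_insert, mem_singleton]; tauto
    rw [e]
    exact hsp.2.2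
  rw [e1, cov, Finset.sum_biUnion]
  · rfl
  · intro s hs t ht hst
    exact hM.dis s hs t ht hst

theorem one_triple (h : IsSTS S) (hM : MaxM S M) {B : Finset V}
    (h7 : ∀ t ∈ M, ∀ z₁ ∈ t, ∀ z₂ ∈ t, z₁ ≠ z₂ → 7 ≤ (att h M B z₁).card →
      (att h M B z₂).card = 0) {t : Finset V} (ht : t ∈ M) :
    (∃ z ∈ t, ∑ w ∈ t, (att h M B w).card = (att h M B z).card) ∨
      ∑ w ∈ t, (att h M B w).card ≤ 18 := by
  have h3 := h.three t (hM.sub ht)
  by_cases h8 : ∃ z ∈ t, 7 ≤ (att h M B z).card
  · obtain ⟨z, hz, hk⟩ := h8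
    refine Or.inl ⟨z, hz, ?_⟩
    apply Finset.sum_eq_single_of_mem z hz
    intro w hw hne
    exact h7 t ht z hz w hw hne.symm hk
  · push Not at h8
    have e6 : ∑ w ∈ t, (att h M B w).card ≤ t.card • 6 :=
      Finset.sum_le_card_nsmul _ _ _ fun w hw => Nat.le_of_lt_succ (h8 w hw)
    rw [h3, smul_eq_mul] at e6
    exact Or.inr e6

theorem total (h : IsSTS S) (hM : MaxM S M) {B : Finset V} (hd : 18 ≤ (unc M).card)
    (h2 : ∀ b ∈ B, ∀ u ∈ unc M, ∀ v ∈ unc M, u ≠ b → v ≠ b → ({b, u, v} : Finset V) ∉ S)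
    (h7 : ∀ t ∈ M, ∀ z₁ ∈ t, ∀ z₂ ∈ t, z₁ ≠ z₂ → 7 ≤ (att h M B z₁).card →
      (att h M B z₂).card = 0) :
    B.card * ((unc M).card - 1) ≤ M.card * (unc M).card := by
  have hT : ∀ t ∈ M, ∑ z ∈ t, (att h M B z).card ≤ (unc M).card := by
    intro t ht
    rcases one_triple h hM h7 ht with ⟨z, -, hz⟩ | h8
    · rw [hz]; exact Finset.card_le_card (Finset.filter_subset _ _)
    · omega
  have h9 := Finset.sum_le_card_nsmul M _ _ hT
  rw [smul_eq_mul] at h9
  have h10 := sum_att (M := M) h B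
  rw [sum_split h hM h2] at h10
  exact h10.trans h9

theorem layer (h : IsSTS S) (hM : MaxM S M) {B : Finset V} {q : ℕ} (hq : 18 ≤ q)
    (h2 : ∀ b ∈ B, ∀ u ∈ unc M, ∀ v ∈ unc M, u ≠ b → v ≠ b → ({b, u, v} : Finset V) ∉ S)
    (h7 : ∀ t ∈ M, ∀ z₁ ∈ t, ∀ z₂ ∈ t, z₁ ≠ z₂ → 7 ≤ (att h M B z₁).card →
      (att h M B z₂).card = 0) (R : ℕ) :
    B.card * ((unc M).card - 1) ≤ q * M.card + ∑ i ∈ range R, 24 * hv h M B (q + 24 * i) +
      (unc M).card * hv h M B (q + 24 * R) := by
  classical
  have hT : ∀ t ∈ M, ∑ z ∈ t, (att h M B z).card ≤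
      q + ∑ i ∈ range R, (if ∃ z ∈ t, q + 24 * i ≤ (att h M B z).card then 24 else 0) +
        (if ∃ z ∈ t, q + 24 * R ≤ (att h M B z).card then (unc M).card else 0) := by
    intro t ht
    rcases one_triple h hM h7 ht with ⟨z, hz, e3⟩ | h8
    · rw [e3]
      have e5 : (att h M B z).card ≤ (unc M).card := Finset.card_le_card (Finset.filter_subset _ _)
      have e7 := cake q (att h M B z).card (unc M).card e5 R
      have e8 : ∀ x : ℕ, x ≤ (att h M B z).card → ∃ w ∈ t, x ≤ (att h M B w).card :=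
        fun x hx => ⟨z, hz, hx⟩
      refine e7.trans (Nat.add_le_add (Nat.add_le_add_left (Finset.sum_le_sum fun i _ => ?_) _) ?_)
      · split_ifs with g1 g2
        · exact le_rfl
        · exact absurd (e8 _ g1) g2
        · exact Nat.zero_le _
        · exact le_rfl
      · split_ifs with g1 g2
        · exact le_rfl
        · exact absurd (e8 _ g1) g2
        · exact Nat.zero_le _
        · exact le_rfl
    · omega
  calc B.card * ((unc M).card - 1) ≤ ∑ z, (att h M B z).card := sum_att h B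
    _ = ∑ t ∈ M, ∑ z ∈ t, (att h M B z).card := sum_split h hM h2
    _ ≤ ∑ t ∈ M, (q + ∑ i ∈ range R,
          (if ∃ z ∈ t, q + 24 * i ≤ (att h M B z).card then 24 else 0) +
        (if ∃ z ∈ t, q + 24 * R ≤ (att h M B z).card then (unc M).card else 0)) :=
        Finset.sum_le_sum hT
    _ = _ := by
        rw [Finset.sum_add_distrib, Finset.sum_add_distrib, Finset.sum_const, smul_eq_mul,
          Finset.sum_comm, ← Finset.sum_filter, Finset.sum_const, smul_eq_mul, hv_eq, mul_comm q,
          mul_comm (unc M).card]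
        congr 2
        apply Finset.sum_congr rfl
        intro i _
        rw [← Finset.sum_filter, Finset.sum_const, smul_eq_mul, hv_eq, mul_comm]

end Pool.Agent.H98.SG
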