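import Pool.Agent.H98.SG.Step

/-! Two light triples with disjoint cores: both companions can be uncovered together. -/

set_option autoImplicit false
set_option linter.unusedSectionVars false

namespace Pool.Agent.H98.SG

open Finset Pool.Agent.H98.ST

variable {V : Type} [Fintype V] [DecidableEq V] {S M : Finset (Finset V)}

/-- the core of a light triple: the triple, the uncovered point and the home of the third point -/
def core (M : Finset (Finset V)) (t : Finset V) (u b : V) : Finset V := t ∪ {u} ∪ home M b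

theorem double_card (h : IsSTS S) (hM : MaxM S M) {K s : ℕ} {b c : V} (hb : Rel S M K s b)
    (hc : Rel S M K s c) (hbc : c ∉ home M b) (F : Finset V) (hbF : Disjoint (home M b) F)
    (hcF : Disjoint (home M c) F) (hK : F.card + 3 + s ≤ K) :
    ∃ R A : Finset (Finset V), Exch S M R A ∧ b ∉ cov A ∧ c ∉ cov A ∧ b ∈ cov R ∪ unc M ∧
      c ∈ cov R ∪ unc M ∧ Disjoint (cov R ∪ cov A) F ∧ (cov R ∪ cov A).card ≤ 2 * s := by
  have hhd := home_disj hM hbc
  obtain ⟨R₁, A₁, e1, hb1, hb1', hd1, hs1⟩ := hb (F ∪ home M c)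
    ((card_union_le _ _).trans (by have := home_card h hM c; omega))
    (disjoint_union_right.2 ⟨hbF, hhd⟩)
  rw [disjoint_union_right] at hd1
  obtain ⟨R₂, A₂, e2, hc2, hc2', hd2, hs2⟩ := hc (F ∪ home M b ∪ (cov R₁ ∪ cov A₁))
    (by
      have h1 := card_union_le (F ∪ home M b) (cov R₁ ∪ cov A₁)
      have h2 := card_union_le F (home M b)
      have h3 := home_card h hM b
      omega)
    (by
      rw [disjoint_union_right, disjoint_union_right]
      exact ⟨⟨hcF, hhd.symm⟩, hd1.2.symm⟩)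
  rw [disjoint_union_right, disjoint_union_right] at hd2
  refine ⟨R₁ ∪ R₂, A₁ ∪ A₂, e1.union h hM e2 hd2.2.symm, ?_, ?_, ?_, ?_, ?_, ?_⟩
  · rw [cov_union, mem_union, not_or]
    refine ⟨hb1, fun hb2 => ?_⟩
    exact Finset.disjoint_left.1 hd2.1.2 (mem_union_right _ hb2) (self_home b)
  · rw [cov_union, mem_union, not_or]
    refine ⟨fun hc1 => ?_, hc2⟩
    exact Finset.disjoint_left.1 hd1.2 (mem_union_right _ hc1) (self_home c)
  · rw [cov_union]
    rcases mem_union.1 hb1' with h3 | h3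
    · exact mem_union_left _ (mem_union_left _ h3)
    · exact mem_union_right _ h3
  · rw [cov_union]
    rcases mem_union.1 hc2' with h3 | h3
    · exact mem_union_left _ (mem_union_right _ h3)
    · exact mem_union_right _ h3
  · rw [cov_union, cov_union]
    have h5 := disjoint_union_left.1 hd1.1
    have h6 := disjoint_union_left.1 hd2.1.1
    simp only [disjoint_union_left]
    exact ⟨⟨h5.1, h6.1⟩, h5.2, h6.2⟩
  · rw [cov_union, cov_union]
    have h7 : cov R₁ ∪ cov R₂ ∪ (cov A₁ ∪ cov A₂) ⊆ (cov R₁ ∪ cov A₁) ∪ (cov R₂ ∪ cov A₂) := by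
      intro x hx
      simp only [mem_union] at hx ⊢
      tauto
    have h8 := card_le_card h7
    have h9 := card_union_le (cov R₁ ∪ cov A₁) (cov R₂ ∪ cov A₂)
    omega

/-- the companions `p₁`, `p₂` are uncovered together -/
theorem pair_free (h : IsSTS S) (hM : MaxM S M) {K s K₀ : ℕ} (hK : K₀ + s + 11 ≤ K)
    {b₁ b₂ u₁ u₂ z₁ z₂ p₁ p₂ : V} {t₁ t₂ : Finset V} (hb1 : Rel S M K s b₁)
    (hb2 : Rel S M K s b₂) (ht1 : t₁ ∈ M) (ht2 : t₂ ∈ M) (hz1 : z₁ ∈ t₁) (hz2 : z₂ ∈ t₂)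
    (hp1 : p₁ ∈ t₁) (hp2 : p₂ ∈ t₂) (hne1 : p₁ ≠ z₁) (hne2 : p₂ ≠ z₂) (hu1 : u₁ ∈ unc M)
    (hu2 : u₂ ∈ unc M) (hub1 : u₁ ≠ b₁) (hub2 : u₂ ≠ b₂) (hbt1 : b₁ ∉ t₁) (hbt2 : b₂ ∉ t₂)
    (hT1 : ({z₁, b₁, u₁} : Finset V) ∈ S) (hT2 : ({z₂, b₂, u₂} : Finset V) ∈ S)
    (hc : Disjoint (core M t₁ u₁ b₁) (core M t₂ u₂ b₂)) {F : Finset V} (hF : F.card ≤ K₀)
    (hF1 : Disjoint (core M t₁ u₁ b₁) F) (hF2 : Disjoint (core M t₂ u₂ b₂) F) :
    ∃ R A : Finset (Finset V), Exch S M R A ∧ p₁ ∉ cov A ∧ p₂ ∉ cov A ∧ p₁ ∈ cov R ∧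
      p₂ ∈ cov R ∧ Disjoint (cov R ∪ cov A) F ∧ (cov R ∪ cov A).card ≤ 2 * s + 10 := by
  have m1 : ∀ x ∈ t₁, x ∈ core M t₁ u₁ b₁ := fun x hx => mem_union_left _ (mem_union_left _ hx)
  have m2 : ∀ x ∈ t₂, x ∈ core M t₂ u₂ b₂ := fun x hx => mem_union_left _ (mem_union_left _ hx)
  have mu1 : u₁ ∈ core M t₁ u₁ b₁ := mem_union_left _ (mem_union_right _ (mem_singleton_self _))
  have mu2 : u₂ ∈ core M t₂ u₂ b₂ := mem_union_left _ (mem_union_right _ (mem_singleton_self _))
  have mh1 : ∀ x ∈ home M b₁, x ∈ core M t₁ u₁ b₁ := fun x hx => mem_union_right _ hx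
  have mh2 : ∀ x ∈ home M b₂, x ∈ core M t₂ u₂ b₂ := fun x hx => mem_union_right _ hx
  have hcd : ∀ x, x ∈ core M t₁ u₁ b₁ → x ∉ core M t₂ u₂ b₂ := fun x hx hx' =>
    Finset.disjoint_left.1 hc hx hx'
  have hut1 : u₁ ∉ t₁ := fun hx => mem_unc.1 hu1 (mem_cov.2 ⟨t₁, ht1, hx⟩)
  have hut2 : u₂ ∉ t₂ := fun hx => mem_unc.1 hu2 (mem_cov.2 ⟨t₂, ht2, hx⟩)
  have h31 := h.three t₁ (hM.sub ht1)
  have h32 := h.three t₂ (hM.sub ht2)
  have hbb : b₂ ∉ home M b₁ := fun hx => hcd b₂ (mh1 _ hx) (mh2 _ (self_home b₂))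
  have hdh1 : Disjoint (home M b₁) F := hF1.mono_left mh1
  have hdh2 : Disjoint (home M b₂) F := hF2.mono_left mh2
  obtain ⟨R, A, e, hA1, hA2, hR1, hR2, hd, hs⟩ := double_card h hM hb1 hb2 hbb
    (F ∪ (t₁ ∪ t₂) ∪ {u₁, u₂})
    (by
      simp only [disjoint_union_right]
      refine ⟨⟨hdh1, home_disj_triple hM ht1 hbt1, ?_⟩, ?_⟩
      · rw [Finset.disjoint_left]
        exact fun x hx hx' => hcd x (mh1 x hx) (m2 x hx')
      · rw [Finset.disjoint_right]
        intro x hx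
        simp only [mem_insert, mem_singleton] at hx
        rcases hx with hx | hx
        · rw [hx]; exact unc_home hM hu1 hub1
        · rw [hx]; exact fun hx' => hcd u₂ (mh1 _ hx') mu2)
    (by
      simp only [disjoint_union_right]
      refine ⟨⟨hdh2, ?_, home_disj_triple hM ht2 hbt2⟩, ?_⟩
      · rw [Finset.disjoint_left]
        exact fun x hx hx' => hcd x (m1 x hx') (mh2 x hx)
      · rw [Finset.disjoint_right]
        intro x hx
        simp only [mem_insert, mem_singleton] at hx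
        rcases hx with hx | hx
        · rw [hx]; exact fun hx' => hcd u₁ mu1 (mh2 _ hx')
        · rw [hx]; exact unc_home hM hu2 hub2)
    (by
      have h1 := card_union_le (F ∪ (t₁ ∪ t₂)) {u₁, u₂}
      have h2 := card_union_le F (t₁ ∪ t₂)
      have h3 := card_union_le t₁ t₂
      have h4 : ({u₁, u₂} : Finset V).card ≤ 2 := card_le_two
      omega)
  have hdF := hd.mono_right (subset_union_left.trans subset_union_left)
  have hdT := hd.mono_right (subset_union_right.trans subset_union_left)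
  have hdU := hd.mono_right (subset_union_right (s₁ := F ∪ (t₁ ∪ t₂)))
  have n1 : ∀ x ∈ t₁, x ∉ cov R ∪ cov A := fun x hx hx' =>
    Finset.disjoint_left.1 hdT hx' (mem_union_left _ hx)
  have n2 : ∀ x ∈ t₂, x ∉ cov R ∪ cov A := fun x hx hx' =>
    Finset.disjoint_left.1 hdT hx' (mem_union_right _ hx)
  have nu1 : u₁ ∉ cov R ∪ cov A := fun hx' => Finset.disjoint_left.1 hdU hx' (by simp)
  have nu2 : u₂ ∉ cov R ∪ cov A := fun hx' => Finset.disjoint_left.1 hdU hx' (by simp)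
  have hX2 : Disjoint ({z₂, b₂, u₂} : Finset V) (cov A) := by
    rw [Finset.disjoint_left]
    intro x hx
    simp only [mem_insert, mem_singleton] at hx
    rcases hx with hx | hx | hx
    · rw [hx]; exact fun hx' => n2 z₂ hz2 (mem_union_right _ hx')
    · rw [hx]; exact hA2
    · rw [hx]; exact fun hx' => nu2 (mem_union_right _ hx')
  have s1 : ({z₁, b₁, u₁} : Finset V) ⊆ core M t₁ u₁ b₁ := by
    intro x hx
    simp only [mem_insert, mem_singleton] at hx
    rcases hx with hx | hx | hx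
    · rw [hx]; exact m1 _ hz1
    · rw [hx]; exact mh1 _ (self_home _)
    · rw [hx]; exact mu1
  have s2 : ({z₂, b₂, u₂} : Finset V) ⊆ core M t₂ u₂ b₂ := by
    intro x hx
    simp only [mem_insert, mem_singleton] at hx
    rcases hx with hx | hx | hx
    · rw [hx]; exact m2 _ hz2
    · rw [hx]; exact mh2 _ (self_home _)
    · rw [hx]; exact mu2
  have hX1 : Disjoint ({z₁, b₁, u₁} : Finset V) (cov (insert {z₂, b₂, u₂} A)) := by
    rw [cov_insert, disjoint_union_right]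
    constructor
    · exact (hc.mono_left s1).mono_right s2
    · rw [Finset.disjoint_left]
      intro x hx
      simp only [mem_insert, mem_singleton] at hx
      rcases hx with hx | hx | hx
      · rw [hx]; exact fun hx' => n1 z₁ hz1 (mem_union_right _ hx')
      · rw [hx]; exact hA1
      · rw [hx]; exact fun hx' => nu1 (mem_union_right _ hx')
  have htt : t₁ ≠ t₂ := fun he => hcd z₁ (m1 _ hz1) (m2 _ (he ▸ hz1))
  have ht2R : t₂ ∉ R := fun hx => n2 z₂ hz2 (mem_union_left _ (sub_cov hx hz2))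
  have ht1R : t₁ ∉ insert t₂ R := by
    rw [mem_insert, not_or]
    exact ⟨htt, fun hx => n1 z₁ hz1 (mem_union_left _ (sub_cov hx hz1))⟩
  refine ⟨insert t₁ (insert t₂ R), insert {z₁, b₁, u₁} (insert {z₂, b₂, u₂} A),
    ⟨insert_subset ht1 (insert_subset ht2 e.hR), insert_subset hT1 (insert_subset hT2 e.hA),
      (e.dis.insert hX2).insert hX1, ?_, ?_⟩, ?_, ?_, ?_, ?_, ?_, ?_⟩
  · rw [cov_insert, cov_insert, cov_insert, cov_insert]
    refine union_subset ?_ (union_subset ?_ ?_)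
    · intro x hx
      simp only [mem_insert, mem_singleton] at hx
      rcases hx with hx | hx | hx
      · rw [hx]; exact mem_union_left _ (mem_union_left _ hz1)
      · rw [hx]
        rcases mem_union.1 hR1 with h3 | h3
        · exact mem_union_left _ (mem_union_right _ (mem_union_right _ h3))
        · exact mem_union_right _ h3
      · rw [hx]; exact mem_union_right _ hu1
    · intro x hx
      simp only [mem_insert, mem_singleton] at hx
      rcases hx with hx | hx | hx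
      · rw [hx]; exact mem_union_left _ (mem_union_right _ (mem_union_left _ hz2))
      · rw [hx]
        rcases mem_union.1 hR2 with h3 | h3
        · exact mem_union_left _ (mem_union_right _ (mem_union_right _ h3))
        · exact mem_union_right _ h3
      · rw [hx]; exact mem_union_right _ hu2
    · intro x hx
      rcases mem_union.1 (e.sub hx) with h3 | h3
      · exact mem_union_left _ (mem_union_right _ (mem_union_right _ h3))
      · exact mem_union_right _ h3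
  · rw [card_insert_of_notMem (not_mem_of_disj h hT1 hX1),
      card_insert_of_notMem (not_mem_of_disj h hT2 hX2), card_insert_of_notMem ht1R,
      card_insert_of_notMem ht2R, e.card]
  · rw [cov_insert, cov_insert]
    simp only [mem_union, mem_insert, mem_singleton, not_or]
    refine ⟨⟨hne1, fun he => hbt1 (he ▸ hp1), fun he => hut1 (he ▸ hp1)⟩, ?_, fun hx =>
      n1 p₁ hp1 (mem_union_right _ hx)⟩
    have h9 : p₁ ∉ ({z₂, b₂, u₂} : Finset V) := fun hx => hcd p₁ (m1 _ hp1) (s2 hx)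
    simpa using h9
  · rw [cov_insert, cov_insert]
    simp only [mem_union, mem_insert, mem_singleton, not_or]
    refine ⟨?_, ⟨hne2, fun he => hbt2 (he ▸ hp2), fun he => hut2 (he ▸ hp2)⟩, fun hx =>
      n2 p₂ hp2 (mem_union_right _ hx)⟩
    have h9 : p₂ ∉ ({z₁, b₁, u₁} : Finset V) := fun hx => hcd p₂ (s1 hx) (m2 _ hp2)
    simpa using h9
  · rw [cov_insert]
    exact mem_union_left _ hp1
  · rw [cov_insert, cov_insert]
    exact mem_union_right _ (mem_union_left _ hp2)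
  · rw [cov_insert, cov_insert, cov_insert, cov_insert]
    have h5 := disjoint_union_left.1 hdF
    simp only [disjoint_union_left (s := _)]
    refine ⟨⟨hF1.mono_left m1, hF2.mono_left m2, h5.1⟩, hF1.mono_left s1, hF2.mono_left s2, h5.2⟩
  · have hsub : cov (insert t₁ (insert t₂ R)) ∪
        cov (insert {z₁, b₁, u₁} (insert {z₂, b₂, u₂} A)) ⊆
        (cov R ∪ cov A) ∪ (t₁ ∪ t₂) ∪ ({b₁, b₂} ∪ {u₁, u₂}) := by
      rw [cov_insert, cov_insert, cov_insert, cov_insert]
      intro x hx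
      simp only [mem_union, mem_insert, mem_singleton] at hx ⊢
      rcases hx with (hx | hx | hx) | ((hx | hx | hx) | (hx | hx | hx) | hx)
      · exact Or.inl (Or.inr (Or.inl hx))
      · exact Or.inl (Or.inr (Or.inr hx))
      · exact Or.inl (Or.inl (Or.inl hx))
      · exact Or.inl (Or.inr (Or.inl (hx ▸ hz1)))
      · exact Or.inr (Or.inl (Or.inl hx))
      · exact Or.inr (Or.inr (Or.inl hx))
      · exact Or.inl (Or.inr (Or.inr (hx ▸ hz2)))
      · exact Or.inr (Or.inl (Or.inr hx))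
      · exact Or.inr (Or.inr (Or.inr hx))
      · exact Or.inl (Or.inl (Or.inr hx))
    have h1 := card_le_card hsub
    have h2 := card_union_le ((cov R ∪ cov A) ∪ (t₁ ∪ t₂)) ({b₁, b₂} ∪ {u₁, u₂})
    have h3 := card_union_le (cov R ∪ cov A) (t₁ ∪ t₂)
    have h4 := card_union_le t₁ t₂
    have h5 := card_union_le ({b₁, b₂} : Finset V) {u₁, u₂}
    have h6 : ({b₁, b₂} : Finset V).card ≤ 2 := card_le_two
    have h7 : ({u₁, u₂} : Finset V).card ≤ 2 := card_le_two
    omega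

/-- the third point of `p₁`, `p₂` is covered, or in a core -/
theorem pair_third (h : IsSTS S) (hM : MaxM S M) {K s : ℕ} (hK : s + 12 ≤ K)
    {b₁ b₂ u₁ u₂ z₁ z₂ p₁ p₂ w : V} {t₁ t₂ : Finset V} (hb1 : Rel S M K s b₁)
    (hb2 : Rel S M K s b₂) (ht1 : t₁ ∈ M) (ht2 : t₂ ∈ M) (hz1 : z₁ ∈ t₁) (hz2 : z₂ ∈ t₂)
    (hp1 : p₁ ∈ t₁) (hp2 : p₂ ∈ t₂) (hne1 : p₁ ≠ z₁) (hne2 : p₂ ≠ z₂) (hu1 : u₁ ∈ unc M)
    (hu2 : u₂ ∈ unc M) (hub1 : u₁ ≠ b₁) (hub2 : u₂ ≠ b₂) (hbt1 : b₁ ∉ t₁) (hbt2 : b₂ ∉ t₂)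
    (hT1 : ({z₁, b₁, u₁} : Finset V) ∈ S) (hT2 : ({z₂, b₂, u₂} : Finset V) ∈ S)
    (hT3 : ({p₁, p₂, w} : Finset V) ∈ S)
    (hc : Disjoint (core M t₁ u₁ b₁) (core M t₂ u₂ b₂)) (hw1 : w ∉ core M t₁ u₁ b₁)
    (hw2 : w ∉ core M t₂ u₂ b₂) : w ∉ unc M := by
  intro hw
  obtain ⟨R, A, e, hpA1, hpA2, hpR1, hpR2, hd, -⟩ := pair_free h hM (K₀ := 1) (by omega) hb1 hb2
    ht1 ht2 hz1 hz2 hp1 hp2 hne1 hne2 hu1 hu2 hub1 hub2 hbt1 hbt2 hT1 hT2 hc (F := {w})
    (by simp) (disjoint_singleton_right.2 hw1) (disjoint_singleton_right.2 hw2)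
  have hwA : w ∉ cov A := fun hx =>
    (disjoint_singleton_right.1 hd) (mem_union_right _ hx)
  have hdT : Disjoint ({p₁, p₂, w} : Finset V) (cov A) := by
    rw [Finset.disjoint_left]
    intro x hx
    simp only [mem_insert, mem_singleton] at hx
    rcases hx with hx | hx | hx
    · rw [hx]; exact hpA1
    · rw [hx]; exact hpA2
    · rw [hx]; exact hwA
  have h1 := no_aug h hM e.hR (insert_subset hT3 e.hA) (e.dis.insert hdT)
    (by
      rw [cov_insert]
      apply union_subset _ e.sub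
      intro x hx
      simp only [mem_insert, mem_singleton] at hx
      rcases hx with hx | hx | hx
      · rw [hx]; exact mem_union_left _ hpR1
      · rw [hx]; exact mem_union_left _ hpR2
      · rw [hx]; exact mem_union_right _ hw)
  rw [card_insert_of_notMem (not_mem_of_disj h hT3 hdT), e.card] at h1
  omega

/-- a companion `q` of the third point `w` is released by the two light triples -/
theorem pair_core (h : IsSTS S) (hM : MaxM S M) {K s K' : ℕ} (hK : K' + s + 14 ≤ K)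
    {b₁ b₂ u₁ u₂ z₁ z₂ p₁ p₂ w q : V} {t₁ t₂ t₃ : Finset V} (hb1 : Rel S M K s b₁)
    (hb2 : Rel S M K s b₂) (ht1 : t₁ ∈ M) (ht2 : t₂ ∈ M) (ht3 : t₃ ∈ M) (hz1 : z₁ ∈ t₁)
    (hz2 : z₂ ∈ t₂) (hp1 : p₁ ∈ t₁) (hp2 : p₂ ∈ t₂) (hne1 : p₁ ≠ z₁) (hne2 : p₂ ≠ z₂)
    (hu1 : u₁ ∈ unc M) (hu2 : u₂ ∈ unc M) (hub1 : u₁ ≠ b₁) (hub2 : u₂ ≠ b₂) (hbt1 : b₁ ∉ t₁)
    (hbt2 : b₂ ∉ t₂) (hT1 : ({z₁, b₁, u₁} : Finset V) ∈ S)
    (hT2 : ({z₂, b₂, u₂} : Finset V) ∈ S) (hT3 : ({p₁, p₂, w} : Finset V) ∈ S)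
    (hw : w ∈ t₃) (hq : q ∈ t₃) (hqw : q ≠ w)
    (hc : Disjoint (core M t₁ u₁ b₁) (core M t₂ u₂ b₂)) (hw1 : w ∉ core M t₁ u₁ b₁)
    (hw2 : w ∉ core M t₂ u₂ b₂) {F : Finset V} (hF : F.card ≤ K') (hF3 : Disjoint t₃ F)
    (hF1 : Disjoint (core M t₁ u₁ b₁) F) (hF2 : Disjoint (core M t₂ u₂ b₂) F) :
    ∃ R A : Finset (Finset V), Exch S M R A ∧ q ∉ cov A ∧ q ∈ cov R ∪ unc M ∧
      Disjoint (cov R ∪ cov A) F ∧ (cov R ∪ cov A).card ≤ 2 * s + 13 := by
  have key : ∀ {t u b}, t ∈ M → u ∈ unc M → w ∉ core M t u b → Disjoint (core M t u b) t₃ := by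
    intro t u b ht hu hwc
    simp only [core, mem_union, mem_singleton, not_or] at hwc
    obtain ⟨⟨h1, -⟩, h3⟩ := hwc
    simp only [core, disjoint_union_left]
    refine ⟨⟨hM.dis t ht t₃ ht3 (fun he => h1 (he ▸ hw)), ?_⟩, ?_⟩
    · rw [disjoint_singleton_left]
      exact fun hx => mem_unc.1 hu (mem_cov.2 ⟨t₃, ht3, hx⟩)
    · apply home_disj_triple hM ht3
      intro hx
      rw [home_of_mem hM ht3 hx] at h3
      exact h3 hw
  have hcard3 := h.three t₃ (hM.sub ht3)
  obtain ⟨R, A, e, hpA1, hpA2, hpR1, hpR2, hd, hs⟩ := pair_free h hM (K₀ := K' + 3) (by omega)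
    hb1 hb2 ht1 ht2 hz1 hz2 hp1 hp2 hne1 hne2 hu1 hu2 hub1 hub2 hbt1 hbt2 hT1 hT2 hc
    (F := F ∪ t₃) (by have := card_union_le F t₃; omega)
    (disjoint_union_right.2 ⟨hF1, key ht1 hu1 hw1⟩)
    (disjoint_union_right.2 ⟨hF2, key ht2 hu2 hw2⟩)
  rw [disjoint_union_right] at hd
  obtain ⟨hdF, hd3⟩ := hd
  have n3 : ∀ x ∈ t₃, x ∉ cov R ∪ cov A := fun x hx hx' => Finset.disjoint_left.1 hd3 hx' hx
  have hdT : Disjoint ({p₁, p₂, w} : Finset V) (cov A) := by
    rw [Finset.disjoint_left]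
    intro x hx
    simp only [mem_insert, mem_singleton] at hx
    rcases hx with hx | hx | hx
    · rw [hx]; exact hpA1
    · rw [hx]; exact hpA2
    · rw [hx]; exact fun hx' => n3 w hw (mem_union_right _ hx')
  have ht3R : t₃ ∉ R := fun hx => n3 w hw (mem_union_left _ (sub_cov hx hw))
  have hp1F : p₁ ∉ F := fun hx =>
    Finset.disjoint_left.1 hF1 (mem_union_left _ (mem_union_left _ hp1)) hx
  have hp2F : p₂ ∉ F := fun hx =>
    Finset.disjoint_left.1 hF2 (mem_union_left _ (mem_union_left _ hp2)) hx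
  have hwF : w ∉ F := fun hx => Finset.disjoint_left.1 hF3 hw hx
  refine ⟨insert t₃ R, insert {p₁, p₂, w} A, ⟨insert_subset ht3 e.hR, insert_subset hT3 e.hA,
    e.dis.insert hdT, ?_, ?_⟩, ?_, ?_, ?_, ?_⟩
  · rw [cov_insert, cov_insert]
    refine union_subset ?_ ?_
    · intro x hx
      simp only [mem_insert, mem_singleton] at hx
      rcases hx with hx | hx | hx
      · rw [hx]; exact mem_union_left _ (mem_union_right _ hpR1)
      · rw [hx]; exact mem_union_left _ (mem_union_right _ hpR2)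
      · rw [hx]; exact mem_union_left _ (mem_union_left _ hw)
    · intro x hx
      rcases mem_union.1 (e.sub hx) with h3 | h3
      · exact mem_union_left _ (mem_union_right _ h3)
      · exact mem_union_right _ h3
  · rw [card_insert_of_notMem (not_mem_of_disj h hT3 hdT), card_insert_of_notMem ht3R, e.card]
  · rw [cov_insert]
    simp only [mem_union, mem_insert, mem_singleton, not_or]
    refine ⟨⟨fun he => ?_, fun he => ?_, hqw⟩, fun hx => n3 q hq (mem_union_right _ hx)⟩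
    · exact n3 q hq (mem_union_left _ (he ▸ hpR1))
    · exact n3 q hq (mem_union_left _ (he ▸ hpR2))
  · rw [cov_insert]
    exact mem_union_left _ (mem_union_left _ hq)
  · rw [cov_insert, cov_insert]
    have h5 := disjoint_union_left.1 hdF
    simp only [disjoint_union_left (s := _)]
    refine ⟨⟨hF3, h5.1⟩, ?_, h5.2⟩
    rw [Finset.disjoint_left]
    intro x hx
    simp only [mem_insert, mem_singleton] at hx
    rcases hx with hx | hx | hx
    · rw [hx]; exact hp1F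
    · rw [hx]; exact hp2F
    · rw [hx]; exact hwF
  · have hsub : cov (insert t₃ R) ∪ cov (insert {p₁, p₂, w} A) ⊆ (cov R ∪ cov A) ∪ t₃ := by
      rw [cov_insert, cov_insert]
      intro x hx
      simp only [mem_union, mem_insert, mem_singleton] at hx ⊢
      rcases hx with (hx | hx) | ((hx | hx | hx) | hx)
      · exact Or.inr hx
      · exact Or.inl (Or.inl hx)
      · exact Or.inl (Or.inl (hx ▸ hpR1))
      · exact Or.inl (Or.inl (hx ▸ hpR2))
      · exact Or.inr (hx ▸ hw)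
      · exact Or.inl (Or.inr hx)
    have h1 := card_le_card hsub
    have h2 := card_union_le (cov R ∪ cov A) t₃
    omega

end Pool.Agent.H98.SG
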