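import Pool.Agent.H98.SG.Cube
import Pool.Agent.H98.SG.Core
import Pool.Agent.H98.SG.Pair

/-! Steiner triple systems: the light step. -/

set_option autoImplicit false
set_option linter.unusedSectionVars false

namespace Pool.Agent.H98.SG

open Finset Pool.Agent.H98.ST

variable {V : Type} [Fintype V] [DecidableEq V] {S M : Finset (Finset V)}

/-- The arithmetic of the light step. -/
theorem light_arith {r d n L K2 q W : ℕ} (hq : 18 ≤ q) (hdr : d ≤ r) (hd : 1568 * q ≤ d)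
    (hn : 0 < n) (hd3 : 1408 * (K2 + 1) * q ^ 2 * n ≤ d ^ 3) (hL : r * d ≤ 8 * q * L)
    (hc : L * L ≤ W * L + n * (2 * (K2 * (5 * r))) + (7 * (5 * r) + 14) * L) : L ≤ 4 * W := by
  by_contra hcon
  push Not at hcon
  have hr : 0 < r := by omega
  have hq0 : 0 < q := by omega
  -- 196 r <= L
  have h1 : 196 * r ≤ L := by
    have h2 : (8 * q) * (196 * r) ≤ (8 * q) * L := by
      calc (8 * q) * (196 * r) = r * (1568 * q) := by ring
        _ ≤ r * d := Nat.mul_le_mul_left _ hd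
        _ ≤ 8 * q * L := hL
    exact Nat.le_of_mul_le_mul_left h2 (by omega)
  have h2 : 4 * ((7 * (5 * r) + 14) * L) ≤ L * L := by
    calc 4 * ((7 * (5 * r) + 14) * L) = (140 * r + 56) * L := by ring
      _ ≤ L * L := Nat.mul_le_mul_right _ (by omega)
  have h3 : 4 * (W * L) ≤ L * L := by
    calc 4 * (W * L) = (4 * W) * L := by ring
      _ ≤ L * L := Nat.mul_le_mul_right _ (by omega)
  have h4 : L * L ≤ 20 * K2 * r * n := by
    have h5 : 4 * (n * (2 * (K2 * (5 * r)))) = 2 * (20 * K2 * r * n) := by ring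
    omega
  have h5 : (r * d) * (r * d) ≤ (8 * q * L) * (8 * q * L) := Nat.mul_le_mul hL hL
  have h6 : r * (r * d ^ 2) ≤ r * (1280 * K2 * q ^ 2 * n) := by
    calc r * (r * d ^ 2) = (r * d) * (r * d) := by ring
      _ ≤ (8 * q * L) * (8 * q * L) := h5
      _ = 64 * q ^ 2 * (L * L) := by ring
      _ ≤ 64 * q ^ 2 * (20 * K2 * r * n) := Nat.mul_le_mul_left _ h4
      _ = r * (1280 * K2 * q ^ 2 * n) := by ring
  have h7 : r * d ^ 2 ≤ 1280 * K2 * q ^ 2 * n := Nat.le_of_mul_le_mul_left h6 hr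
  have h8 : d ^ 3 ≤ r * d ^ 2 := by
    calc d ^ 3 = d * d ^ 2 := by ring
      _ ≤ r * d ^ 2 := Nat.mul_le_mul_right _ hdr
  have h9 : 1280 * K2 * q ^ 2 * n < 1408 * (K2 + 1) * q ^ 2 * n := by
    have h10 : 1280 * K2 < 1408 * (K2 + 1) := by omega
    have h11 : 0 < q ^ 2 * n := by positivity
    calc 1280 * K2 * q ^ 2 * n = 1280 * K2 * (q ^ 2 * n) := by ring
      _ < 1408 * (K2 + 1) * (q ^ 2 * n) := Nat.mul_lt_mul_of_pos_right h10 h11
      _ = 1408 * (K2 + 1) * q ^ 2 * n := by ring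
  omega

theorem light (h : IsSTS S) (hM : MaxM S M) : LightStep S M h := by
  classical
  intro K s K2 q B hB hs hK hq hdB hlight hd hd3
  have hu := unc_card h hM
  have hn : 0 < Fintype.card V := by omega
  have h2 : ∀ b ∈ B, ∀ u ∈ unc M, ∀ v ∈ unc M, u ≠ b → v ≠ b → ({b, u, v} : Finset V) ∉ S :=
    fun b hb u hu v hv hub hvb => no_two_unc h hM (by omega) (hB b hb) hu hv hub hvb
  have h7 : ∀ t ∈ M, ∀ z₁ ∈ t, ∀ z₂ ∈ t, z₁ ≠ z₂ → 7 ≤ (att h M B z₁).card →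
      (att h M B z₂).card = 0 :=
    fun t ht z₁ hz1 z₂ hz2 hz h7 => one_heavy h hM (K := K) (s := s) (by omega) hB ht hz1 hz2 hz h7
  obtain ⟨P, C, hcount, hP, hCD⟩ := cores h hM hq h2 h7
  set d := (unc M).card with hdd
  set r := B.card with hr
  set n := Fintype.card V with hnn
  have hself : ∀ p ∈ P, p ∈ C p := by
    intro p hp
    obtain ⟨t, -, z, -, u, -, hpt, -, hC⟩ := hP p hp
    rw [hC]
    exact mem_union_left _ (mem_union_left _ hpt)
  have hc7 : ∀ p ∈ P, (C p).card ≤ 7 := by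
    intro p hp
    obtain ⟨t, ht, z, -, u, -, -, -, hC⟩ := hP p hp
    rw [hC]
    have h3 := h.three t (hM.sub ht)
    have h4 := home_card h hM (th h z u)
    have h5 := card_union_le (t ∪ {u}) (home M (th h z u))
    have h6 := card_union_le t {u}
    rw [card_singleton] at h6
    omega
  have hD : ∀ f, (P.filter (fun p => f ∈ C p)).card ≤ 5 * r := by
    intro f
    have := hCD f
    omega
  have hpc := pair_count h hself hc7 hD (2 * (K2 * (5 * r)))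
  set W := univ.filter (fun z => 2 * (K2 * (5 * r)) < (fib h P C z).card) with hW
  have hL : r * d ≤ 8 * q * P.card := by
    obtain ⟨e, he⟩ : ∃ e, d = e + 8 := ⟨d - 8, by omega⟩
    rw [he] at hcount ⊢
    have e1 : e + 8 - 1 = e + 7 := by omega
    rw [e1] at hcount
    have e2 : 4 * ((e + 8) * hv h M B q) ≤ (e + 8) * (3 * r) := by
      calc 4 * ((e + 8) * hv h M B q) = (e + 8) * (4 * hv h M B q) := by ring
        _ ≤ (e + 8) * (3 * r) := Nat.mul_le_mul_left _ hlight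
    have e3 : 4 * (r * (e + 7)) ≤ (e + 8) * (3 * r) + 4 * (q * P.card) := by omega
    nlinarith
  have hLW : P.card ≤ 4 * W.card := light_arith hq hdB hd hn hd3 hL hpc
  -- the data of a good pair
  have hdata : ∀ p ∈ P, ∃ (t : Finset V) (z u b : V), t ∈ M ∧ z ∈ t ∧ p ∈ t ∧ p ≠ z ∧ u ∈ unc M ∧
      b ∈ B ∧ u ≠ b ∧ b ∉ t ∧ ({z, b, u} : Finset V) ∈ S ∧ C p = t ∪ {u} ∪ home M b := by
    intro p hp
    obtain ⟨t, ht, z, hz, u, hu, hpt, hpz, hC⟩ := hP p hp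
    obtain ⟨huU, huz, hbB⟩ := (mem_att h).1 hu
    obtain ⟨-, hbu, hT'⟩ := th_spec h huz.symm
    refine ⟨t, z, u, th h z u, ht, hz, hpt, hpz, huU, hbB, hbu.symm,
      third_notMem h hM ht hz huU, ?_, hC⟩
    have : ({z, th h z u, u} : Finset V) = {z, u, th h z u} := by
      ext x; simp only [mem_insert, mem_singleton]; tauto
    rw [this]; exact hT'
  have hthird : ∀ p ∈ P, ∀ p' ∈ P, Disjoint (C p) (C p') →
      ({p, p', th h p p'} : Finset V) ∈ S := by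
    intro p hp p' hp' hd'
    exact (th_spec h (ne_of_core (hself p hp) hd' (hself p' hp'))).2.2
  -- W is covered
  have hWcov : ∀ w ∈ W, w ∈ cov M := by
    intro w hw
    by_contra hwc
    have hwU : w ∈ unc M := mem_unc.2 hwc
    obtain ⟨p, p', hpp, hth, -, -⟩ := fib_avoid h hself hD (mem_filter.1 hw).2 (F := ∅) (by simp)
    obtain ⟨hp, hp', hdis, hw1, hw2⟩ := (mem_gp h).1 hpp
    simp only at hp hp' hdis hw1 hw2
    have hT := hthird p hp p' hp' hdis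
    rw [hth] at hT hw1 hw2
    obtain ⟨t₁, z₁, u₁, b₁, ht1, hz1, hpt1, hpz1, hu1, hb1, hub1, hbt1, hT1, hC1⟩ := hdata p hp
    obtain ⟨t₂, z₂, u₂, b₂, ht2, hz2, hpt2, hpz2, hu2, hb2, hub2, hbt2, hT2, hC2⟩ := hdata p' hp'
    rw [hC1, hC2] at hdis
    rw [hC1] at hw1
    rw [hC2] at hw2
    exact pair_third h hM (K := K) (s := s) (by omega) (hB b₁ hb1) (hB b₂ hb2) ht1 ht2 hz1 hz2
      hpt1 hpt2 hpz1 hpz2 hu1 hu2 hub1 hub2 hbt1 hbt2 hT1 hT2 hT hdis hw1 hw2 hwU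
  set H := M.filter (fun τ => ∃ w ∈ τ, w ∈ W) with hH
  let B' : Finset V := univ.filter (fun b => ∃ τ ∈ M, ∃ w ∈ τ, b ∈ τ ∧ b ≠ w ∧ w ∈ W)
  have hcomp : 2 * H.card ≤ B'.card := by
    refine companions h hM (filter_subset _ _) ?_
    intro τ hτ
    obtain ⟨hτM, w, hw, hwW⟩ := mem_filter.1 hτ
    refine ⟨w, hw, fun b hb => ?_⟩
    obtain ⟨hbw, hbτ⟩ := mem_erase.1 hb
    exact mem_filter.2 ⟨mem_univ _, τ, hτM, w, hw, hbτ, hbw, hwW⟩
  have hWH : W.card ≤ 3 * H.card := by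
    have hsub : W ⊆ H.biUnion (fun τ => τ) := by
      intro w hw
      obtain ⟨τ, hτ, hwτ⟩ := mem_cov.1 (hWcov w hw)
      exact mem_biUnion.2 ⟨τ, mem_filter.2 ⟨hτ, w, hwτ, hw⟩, hwτ⟩
    have h8 : (H.biUnion (fun τ => τ)).card ≤ H.card * 3 :=
      card_biUnion_le_card_mul _ _ _ fun τ hτ => (h.three τ (hM.sub (mem_filter.1 hτ).1)).le
    have h9 := card_le_card hsub
    omega
  refine ⟨B', ?_, ?_⟩
  · intro b' hb' F hF hdF
    obtain ⟨-, τ, hτ, w, hwτ, hbτ, hbw, hwW⟩ := mem_filter.1 hb'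
    rw [home_of_mem hM hτ hbτ] at hdF
    obtain ⟨p, p', hpp, hth, hF1, hF2⟩ := fib_avoid h hself hD (mem_filter.1 hwW).2 hF
    obtain ⟨hp, hp', hdis, hw1, hw2⟩ := (mem_gp h).1 hpp
    simp only at hp hp' hdis hw1 hw2
    have hT := hthird p hp p' hp' hdis
    rw [hth] at hT hw1 hw2
    obtain ⟨t₁, z₁, u₁, b₁, ht1, hz1, hpt1, hpz1, hu1, hb1, hub1, hbt1, hT1, hC1⟩ := hdata p hp
    obtain ⟨t₂, z₂, u₂, b₂, ht2, hz2, hpt2, hpz2, hu2, hb2, hub2, hbt2, hT2, hC2⟩ := hdata p' hp'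
    rw [hC1, hC2] at hdis
    rw [hC1] at hw1 hF1
    rw [hC2] at hw2 hF2
    exact pair_core h hM hK (hB b₁ hb1) (hB b₂ hb2) ht1 ht2 hτ hz1 hz2 hpt1 hpt2 hpz1 hpz2 hu1 hu2
      hub1 hub2 hbt1 hbt2 hT1 hT2 hT hwτ hbτ hbw hdis hw1 hw2 hF hdF hF1 hF2
  · calc r * d ≤ 8 * q * P.card := hL
      _ ≤ 8 * q * (6 * B'.card) := Nat.mul_le_mul_left _ (by omega)
      _ = 48 * q * B'.card := by ring

end Pool.Agent.H98.SG
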