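import Pool.Agent.H98.ST.Main

/-! Maximum matchings of Steiner triple systems: exchanges and releasable points. -/

set_option autoImplicit false
set_option linter.unusedSectionVars false

namespace Pool.Agent.H98.SG

open Finset Pool.Agent.H98.ST

variable {V : Type} [Fintype V] [DecidableEq V] {S M : Finset (Finset V)}

/-- the points covered by a set of triples -/
def cov (M : Finset (Finset V)) : Finset V := M.biUnion id

theorem mem_cov {M : Finset (Finset V)} {x : V} : x ∈ cov M ↔ ∃ t ∈ M, x ∈ t := by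
  simp [cov]

theorem cov_union (A B : Finset (Finset V)) : cov (A ∪ B) = cov A ∪ cov B := by
  ext x
  simp only [mem_union, mem_cov]
  constructor
  · rintro ⟨t, ht | ht, hx⟩
    · exact Or.inl ⟨t, ht, hx⟩
    · exact Or.inr ⟨t, ht, hx⟩
  · rintro (⟨t, ht, hx⟩ | ⟨t, ht, hx⟩)
    · exact ⟨t, Or.inl ht, hx⟩
    · exact ⟨t, Or.inr ht, hx⟩

theorem cov_insert (t : Finset V) (A : Finset (Finset V)) : cov (insert t A) = t ∪ cov A := by
  ext x
  simp only [mem_union, mem_cov, mem_insert]
  constructor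
  · rintro ⟨s, rfl | hs, hx⟩
    · exact Or.inl hx
    · exact Or.inr ⟨s, hs, hx⟩
  · rintro (hx | ⟨s, hs, hx⟩)
    · exact ⟨t, Or.inl rfl, hx⟩
    · exact ⟨s, Or.inr hs, hx⟩

/-- pairwise disjoint sets -/
def PD (A : Finset (Finset V)) : Prop := ∀ s ∈ A, ∀ t ∈ A, s ≠ t → Disjoint s t

/-- the uncovered points -/
def unc (M : Finset (Finset V)) : Finset V := univ \ cov M

theorem mem_unc {x : V} : x ∈ unc M ↔ x ∉ cov M := by simp [unc]

/-- `M` is a maximum matching of `S` -/
structure MaxM (S M : Finset (Finset V)) : Prop where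
  sub : M ⊆ S
  dis : PD M
  max : ∀ M' : Finset (Finset V), M' ⊆ S → PD M' → M'.card ≤ M.card

/-- an exchange: the triples of `R` are replaced by those of `A` -/
structure Exch (S M R A : Finset (Finset V)) : Prop where
  hR : R ⊆ M
  hA : A ⊆ S
  dis : PD A
  sub : cov A ⊆ cov R ∪ unc M
  card : A.card = R.card

theorem nonempty_of_mem (h : IsSTS S) {t : Finset V} (ht : t ∈ S) : t.Nonempty := by
  rw [← card_pos, h.three t ht]; norm_num

theorem sub_cov {A : Finset (Finset V)} {t : Finset V} (ht : t ∈ A) : t ⊆ cov A :=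
  fun _ hx => mem_cov.2 ⟨t, ht, hx⟩

theorem not_mem_of_disj (h : IsSTS S) {A : Finset (Finset V)} {t : Finset V} (ht : t ∈ S)
    (hd : Disjoint t (cov A)) : t ∉ A := by
  intro htA
  obtain ⟨x, hx⟩ := nonempty_of_mem h ht
  exact (Finset.disjoint_left.1 hd hx) (sub_cov htA hx)

theorem disj_fam (h : IsSTS S) {A B : Finset (Finset V)} (hA : A ⊆ S)
    (hd : Disjoint (cov A) (cov B)) : Disjoint A B := by
  rw [Finset.disjoint_left]
  intro t ht ht'
  exact not_mem_of_disj h (hA ht) (hd.mono_left (sub_cov ht)) ht'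

theorem PD.union {A B : Finset (Finset V)} (hA : PD A) (hB : PD B)
    (hd : Disjoint (cov A) (cov B)) : PD (A ∪ B) := by
  intro s hs t ht hst
  rcases mem_union.1 hs with hs | hs <;> rcases mem_union.1 ht with ht | ht
  · exact hA s hs t ht hst
  · exact (hd.mono_left (sub_cov hs)).mono_right (sub_cov ht)
  · exact ((hd.mono_left (sub_cov ht)).mono_right (sub_cov hs)).symm
  · exact hB s hs t ht hst

theorem PD.insert {A : Finset (Finset V)} (hA : PD A) {t : Finset V}
    (hd : Disjoint t (cov A)) : PD (insert t A) := by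
  intro s hs r hr hsr
  rcases mem_insert.1 hs with hs1 | hs1 <;> rcases mem_insert.1 hr with hr1 | hr1
  · exact absurd (hs1.trans hr1.symm) hsr
  · rw [hs1]; exact hd.mono_right (sub_cov hr1)
  · rw [hr1]; exact (hd.mono_right (sub_cov hs1)).symm
  · exact hA s hs1 r hr1 hsr

/-- no augmentation -/
theorem no_aug (h : IsSTS S) (hM : MaxM S M) {R A : Finset (Finset V)} (hR : R ⊆ M) (hA : A ⊆ S)
    (hd : PD A) (hs : cov A ⊆ cov R ∪ unc M) : A.card ≤ R.card := by
  have hdis : Disjoint (cov (M \ R)) (cov A) := by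
    rw [Finset.disjoint_left]
    intro x hx hx'
    obtain ⟨t, ht, hxt⟩ := mem_cov.1 hx
    obtain ⟨htM, htR⟩ := mem_sdiff.1 ht
    rcases mem_union.1 (hs hx') with h1 | h1
    · obtain ⟨r, hr, hxr⟩ := mem_cov.1 h1
      have hne : t ≠ r := fun he => htR (he ▸ hr)
      exact (Finset.disjoint_left.1 (hM.dis t htM r (hR hr) hne) hxt) hxr
    · exact mem_unc.1 h1 (mem_cov.2 ⟨t, htM, hxt⟩)
  have hPD : PD (M \ R) := fun s hs t ht => hM.dis s (mem_sdiff.1 hs).1 t (mem_sdiff.1 ht).1
  have h1 := hM.max ((M \ R) ∪ A) (union_subset (sdiff_subset.trans hM.sub) hA)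
    (hPD.union hd hdis)
  rw [card_union_of_disjoint (disj_fam h (sdiff_subset.trans hM.sub) hdis),
    card_sdiff_of_subset hR] at h1
  have h2 := card_le_card hR
  omega

/-- the triple of `M` through `b`, or `{b}` if `b` is not covered -/
def home (M : Finset (Finset V)) (b : V) : Finset V := insert b (cov (M.filter (fun t => b ∈ t)))

theorem self_home (b : V) : b ∈ home M b := mem_insert_self _ _

theorem home_of_mem (hM : MaxM S M) {t : Finset V} (ht : t ∈ M) {b : V} (hb : b ∈ t) :
    home M b = t := by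
  ext x
  simp only [home, mem_insert, mem_cov, mem_filter]
  constructor
  · rintro (rfl | ⟨s, ⟨hs, hbs⟩, hx⟩)
    · exact hb
    · by_cases hst : s = t
      · rw [← hst]; exact hx
      · exact absurd hb (Finset.disjoint_left.1 (hM.dis s hs t ht hst) hbs)
  · intro hx
    exact Or.inr ⟨t, ⟨ht, hb⟩, hx⟩

theorem home_of_unc {b : V} (hb : b ∈ unc M) : home M b = {b} := by
  ext x
  simp only [home, mem_insert, mem_cov, mem_filter, mem_singleton]
  constructor
  · rintro (rfl | ⟨s, ⟨hs, hbs⟩, -⟩)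
    · rfl
    · exact absurd (mem_cov.2 ⟨s, hs, hbs⟩) (mem_unc.1 hb)
  · intro hx; exact Or.inl hx

theorem home_cases (hM : MaxM S M) (b : V) :
    (b ∈ unc M ∧ home M b = {b}) ∨ (∃ t ∈ M, b ∈ t ∧ home M b = t) := by
  by_cases hb : b ∈ unc M
  · exact Or.inl ⟨hb, home_of_unc hb⟩
  · have : b ∈ cov M := by
      by_contra h
      exact hb (mem_unc.2 h)
    obtain ⟨t, ht, hbt⟩ := mem_cov.1 this
    exact Or.inr ⟨t, ht, hbt, home_of_mem hM ht hbt⟩

theorem home_card (h : IsSTS S) (hM : MaxM S M) (b : V) : (home M b).card ≤ 3 := by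
  rcases home_cases hM b with ⟨-, h1⟩ | ⟨t, ht, -, h1⟩
  · rw [h1]; simp
  · rw [h1, h.three t (hM.sub ht)]

theorem home_disj (hM : MaxM S M) {b c : V} (hc : c ∉ home M b) :
    Disjoint (home M b) (home M c) := by
  rcases home_cases hM b with ⟨hb, h1⟩ | ⟨t, ht, hbt, h1⟩ <;>
    rcases home_cases hM c with ⟨hc', h2⟩ | ⟨s, hs, hcs, h2⟩
  · rw [h1, h2, disjoint_singleton]
    intro he
    exact hc (he ▸ self_home b)
  · rw [h1, h2, disjoint_singleton_left]
    intro hbs
    exact mem_unc.1 hb (mem_cov.2 ⟨s, hs, hbs⟩)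
  · rw [h1, h2, disjoint_singleton_right]
    intro hct
    exact mem_unc.1 hc' (mem_cov.2 ⟨t, ht, hct⟩)
  · rw [h1, h2]
    apply hM.dis t ht s hs
    rintro rfl
    rw [h1] at hc
    exact hc hcs

theorem unc_home (hM : MaxM S M) {u b : V} (hu : u ∈ unc M) (hub : u ≠ b) : u ∉ home M b := by
  rcases home_cases hM b with ⟨hb, h1⟩ | ⟨t, ht, hbt, h1⟩
  · rw [h1, mem_singleton]; exact hub
  · rw [h1]
    intro hut
    exact mem_unc.1 hu (mem_cov.2 ⟨t, ht, hut⟩)

theorem home_disj_triple (hM : MaxM S M) {t : Finset V} (ht : t ∈ M) {b : V} (hb : b ∉ t) :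
    Disjoint (home M b) t := by
  rcases home_cases hM b with ⟨hb', h1⟩ | ⟨s, hs, hbs, h1⟩
  · rw [h1, disjoint_singleton_left]; exact hb
  · rw [h1]
    apply hM.dis s hs t ht
    rintro rfl
    exact hb hbs

/-- `b` is `(K,s)`-releasable -/
def Rel (S M : Finset (Finset V)) (K s : ℕ) (b : V) : Prop :=
  ∀ F : Finset V, F.card ≤ K → Disjoint (home M b) F →
    ∃ R A : Finset (Finset V), Exch S M R A ∧ b ∉ cov A ∧ b ∈ cov R ∪ unc M ∧
      Disjoint (cov R ∪ cov A) F ∧ (cov R ∪ cov A).card ≤ s

theorem exch_empty : Exch S M ∅ ∅ :=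
  ⟨empty_subset _, empty_subset _, fun s hs => absurd hs (notMem_empty s),
    by simp [cov], rfl⟩

theorem rel_unc {b : V} (hb : b ∈ unc M) (K s : ℕ) : Rel S M K s b := by
  intro F _ _
  exact ⟨∅, ∅, exch_empty, by simp [cov], mem_union_right _ hb, by simp [cov], by simp [cov]⟩

theorem Exch.union (h : IsSTS S) (hM : MaxM S M) {R₁ A₁ R₂ A₂ : Finset (Finset V)}
    (h1 : Exch S M R₁ A₁) (h2 : Exch S M R₂ A₂)
    (hd : Disjoint (cov R₁ ∪ cov A₁) (cov R₂ ∪ cov A₂)) : Exch S M (R₁ ∪ R₂) (A₁ ∪ A₂) := by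
  rw [disjoint_union_left, disjoint_union_right, disjoint_union_right] at hd
  obtain ⟨⟨hRR, hRA⟩, hAR, hAA⟩ := hd
  refine ⟨union_subset h1.hR h2.hR, union_subset h1.hA h2.hA, h1.dis.union h2.dis hAA, ?_, ?_⟩
  · rw [cov_union, cov_union]
    apply union_subset
    · intro x hx
      rcases mem_union.1 (h1.sub hx) with h3 | h3
      · exact mem_union_left _ (mem_union_left _ h3)
      · exact mem_union_right _ h3
    · intro x hx
      rcases mem_union.1 (h2.sub hx) with h3 | h3
      · exact mem_union_left _ (mem_union_right _ h3)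
      · exact mem_union_right _ h3
  · rw [card_union_of_disjoint (disj_fam h h1.hA hAA),
      card_union_of_disjoint (disj_fam h (h1.hR.trans hM.sub) hRR), h1.card, h2.card]

/-- two points can be released together -/
theorem double (h : IsSTS S) (hM : MaxM S M) {K s : ℕ} {b c : V} (hb : Rel S M K s b)
    (hc : Rel S M K s c) (hbc : c ∉ home M b) (F : Finset V) (hbF : Disjoint (home M b) F)
    (hcF : Disjoint (home M c) F) (hK : F.card + 3 + s ≤ K) :
    ∃ R A : Finset (Finset V), Exch S M R A ∧ b ∉ cov A ∧ c ∉ cov A ∧ b ∈ cov R ∪ unc M ∧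
      c ∈ cov R ∪ unc M ∧ Disjoint (cov R ∪ cov A) F := by
  have hhd := home_disj hM hbc
  obtain ⟨R₁, A₁, e1, hb1, hb1', hd1, hs1⟩ := hb (F ∪ home M c)
    ((card_union_le _ _).trans (by have := home_card h hM c; omega))
    (disjoint_union_right.2 ⟨hbF, hhd⟩)
  rw [disjoint_union_right] at hd1
  obtain ⟨R₂, A₂, e2, hc2, hc2', hd2, hs2⟩ := hc (F ∪ home M b ∪ (cov R₁ ∪ cov A₁))
    (by
      have h1 := card_union_le (F ∪ home M b) (cov R₁ ∪ cov A₁)
      have h2 := card_union_le F (home M b)
      have h3 := home_card h hM b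
      omega)
    (by
      rw [disjoint_union_right, disjoint_union_right]
      exact ⟨⟨hcF, hhd.symm⟩, hd1.2.symm⟩)
  rw [disjoint_union_right, disjoint_union_right] at hd2
  refine ⟨R₁ ∪ R₂, A₁ ∪ A₂, e1.union h hM e2 hd2.2.symm, ?_, ?_, ?_, ?_, ?_⟩
  · rw [cov_union, mem_union, not_or]
    refine ⟨hb1, fun hb2 => ?_⟩
    exact Finset.disjoint_left.1 hd2.1.2 (mem_union_right _ hb2) (self_home b)
  · rw [cov_union, mem_union, not_or]
    refine ⟨fun hc1 => ?_, hc2⟩
    exact Finset.disjoint_left.1 hd1.2 (mem_union_right _ hc1) (self_home c)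
  · rw [cov_union]
    rcases mem_union.1 hb1' with h3 | h3
    · exact mem_union_left _ (mem_union_left _ h3)
    · exact mem_union_right _ h3
  · rw [cov_union]
    rcases mem_union.1 hc2' with h3 | h3
    · exact mem_union_left _ (mem_union_right _ h3)
    · exact mem_union_right _ h3
  · rw [cov_union, cov_union]
    have h5 := disjoint_union_left.1 hd1.1
    have h6 := disjoint_union_left.1 hd2.1.1
    simp only [disjoint_union_left]
    exact ⟨⟨h5.1, h6.1⟩, h5.2, h6.2⟩

/-- no triple contains a releasable point and two uncovered points -/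
theorem no_two_unc (h : IsSTS S) (hM : MaxM S M) {K s : ℕ} (hK : 2 ≤ K) {b u v : V}
    (hb : Rel S M K s b) (hu : u ∈ unc M) (hv : v ∈ unc M) (hub : u ≠ b) (hvb : v ≠ b) :
    ({b, u, v} : Finset V) ∉ S := by
  intro hT
  obtain ⟨R, A, e, hbA, hbR, hd, -⟩ := hb {u, v} ((card_le_two).trans hK)
    (by
      rw [Finset.disjoint_right]
      intro x hx
      simp only [mem_insert, mem_singleton] at hx
      rcases hx with rfl | rfl
      · exact unc_home hM hu hub
      · exact unc_home hM hv hvb)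
  have huA : u ∉ cov A := fun hx => Finset.disjoint_left.1 hd (mem_union_right _ hx) (by simp)
  have hvA : v ∉ cov A := fun hx => Finset.disjoint_left.1 hd (mem_union_right _ hx) (by simp)
  have hdT : Disjoint ({b, u, v} : Finset V) (cov A) := by
    rw [Finset.disjoint_left]
    intro x hx
    simp only [mem_insert, mem_singleton] at hx
    rcases hx with rfl | rfl | rfl <;> assumption
  have h1 := no_aug h hM e.hR (insert_subset hT e.hA) (e.dis.insert hdT)
    (by
      rw [cov_insert]
      apply union_subset _ e.sub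
      intro x hx
      simp only [mem_insert, mem_singleton] at hx
      rcases hx with rfl | rfl | rfl
      · exact hbR
      · exact mem_union_right _ hu
      · exact mem_union_right _ hv)
  rw [card_insert_of_notMem (not_mem_of_disj h hT hdT), e.card] at h1
  omega

/-- in a triple of `M`, two points cannot both be attached, independently -/
theorem no_two_att (h : IsSTS S) (hM : MaxM S M) {K s : ℕ} (hK : s + 8 ≤ K) {t : Finset V}
    (ht : t ∈ M) {z₁ z₂ b₁ b₂ u₁ u₂ : V} (hz1 : z₁ ∈ t) (hz2 : z₂ ∈ t) (hz : z₁ ≠ z₂)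
    (hb1 : Rel S M K s b₁) (hb2 : Rel S M K s b₂) (hb : b₂ ∉ home M b₁) (hu1 : u₁ ∈ unc M)
    (hu2 : u₂ ∈ unc M) (hu : u₁ ≠ u₂) (h11 : u₁ ≠ b₁) (h22 : u₂ ≠ b₂) (h12 : u₁ ≠ b₂)
    (h21 : u₂ ≠ b₁) (hbt1 : b₁ ∉ t) (hbt2 : b₂ ∉ t) (hT1 : ({z₁, b₁, u₁} : Finset V) ∈ S)
    (hT2 : ({z₂, b₂, u₂} : Finset V) ∈ S) : False := by
  have hut1 : u₁ ∉ t := fun hx => mem_unc.1 hu1 (mem_cov.2 ⟨t, ht, hx⟩)
  have hut2 : u₂ ∉ t := fun hx => mem_unc.1 hu2 (mem_cov.2 ⟨t, ht, hx⟩)
  have hF : ∀ b : V, b ∉ t → u₁ ≠ b → u₂ ≠ b → Disjoint (home M b) (t ∪ {u₁, u₂}) := by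
    intro b hbt h1 h2
    rw [disjoint_union_right]
    refine ⟨home_disj_triple hM ht hbt, ?_⟩
    rw [Finset.disjoint_right]
    intro x hx
    simp only [mem_insert, mem_singleton] at hx
    rcases hx with rfl | rfl
    · exact unc_home hM hu1 h1
    · exact unc_home hM hu2 h2
  have hcard : (t ∪ {u₁, u₂} : Finset V).card ≤ 5 := by
    have h1 := card_union_le t {u₁, u₂}
    have h2 : ({u₁, u₂} : Finset V).card ≤ 2 := card_le_two
    have h3 := h.three t (hM.sub ht)
    omega
  obtain ⟨R, A, e, hA1, hA2, hR1, hR2, hd⟩ := double h hM hb1 hb2 hb (t ∪ {u₁, u₂})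
    (hF b₁ hbt1 h11 h21) (hF b₂ hbt2 h12 h22) (by omega)
  rw [disjoint_union_left] at hd
  obtain ⟨hdR, hdA⟩ := hd
  have hnA : ∀ x ∈ t ∪ {u₁, u₂}, x ∉ cov A := fun x hx hx' => Finset.disjoint_left.1 hdA hx' hx
  have hz1A := hnA z₁ (mem_union_left _ hz1)
  have hz2A := hnA z₂ (mem_union_left _ hz2)
  have hu1A := hnA u₁ (by simp)
  have hu2A := hnA u₂ (by simp)
  have hd2 : Disjoint ({z₂, b₂, u₂} : Finset V) (cov A) := by
    rw [Finset.disjoint_left]
    intro x hx
    simp only [mem_insert, mem_singleton] at hx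
    rcases hx with rfl | rfl | rfl <;> assumption
  have hbb : b₁ ≠ b₂ := fun he => hb (he ▸ self_home b₁)
  have hd1 : Disjoint ({z₁, b₁, u₁} : Finset V) (cov (insert {z₂, b₂, u₂} A)) := by
    rw [cov_insert, disjoint_union_right]
    constructor
    · rw [Finset.disjoint_left]
      intro x hx hx'
      simp only [mem_insert, mem_singleton] at hx hx'
      rcases hx with rfl | rfl | rfl <;> rcases hx' with hx' | hx' | hx'
      · exact hz hx'
      · exact hbt2 (hx' ▸ hz1)
      · exact hut2 (hx' ▸ hz1)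
      · exact hbt1 (hx' ▸ hz2)
      · exact hbb hx'
      · exact h21 hx'.symm
      · exact hut1 (hx' ▸ hz2)
      · exact h12 hx'
      · exact hu hx'
    · rw [Finset.disjoint_left]
      intro x hx
      simp only [mem_insert, mem_singleton] at hx
      rcases hx with rfl | rfl | rfl <;> assumption
  have htR : t ∉ R := by
    intro htR
    exact Finset.disjoint_left.1 hdR (sub_cov htR hz1) (mem_union_left _ hz1)
  have h1 := no_aug h hM (insert_subset ht e.hR)
    (insert_subset hT1 (insert_subset hT2 e.hA)) ((e.dis.insert hd2).insert hd1)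
    (by
      rw [cov_insert, cov_insert, cov_insert]
      refine union_subset ?_ (union_subset ?_ ?_)
      · intro x hx
        simp only [mem_insert, mem_singleton] at hx
        rcases hx with rfl | rfl | rfl
        · exact mem_union_left _ (mem_union_left _ hz1)
        · rcases mem_union.1 hR1 with h3 | h3
          · exact mem_union_left _ (mem_union_right _ h3)
          · exact mem_union_right _ h3
        · exact mem_union_right _ hu1
      · intro x hx
        simp only [mem_insert, mem_singleton] at hx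
        rcases hx with rfl | rfl | rfl
        · exact mem_union_left _ (mem_union_left _ hz2)
        · rcases mem_union.1 hR2 with h3 | h3
          · exact mem_union_left _ (mem_union_right _ h3)
          · exact mem_union_right _ h3
        · exact mem_union_right _ hu2
      · intro x hx
        rcases mem_union.1 (e.sub hx) with h3 | h3
        · exact mem_union_left _ (mem_union_right _ h3)
        · exact mem_union_right _ h3)
  rw [card_insert_of_notMem (not_mem_of_disj h hT1 hd1),
    card_insert_of_notMem (not_mem_of_disj h hT2 hd2), card_insert_of_notMem htR, e.card] at h1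
  omega

end Pool.Agent.H98.SG
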