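import Pool.Agent.H98.SG.Step

/-! Companions of a point with many attached pairs are releasable: sharper constants. -/

set_option autoImplicit false
set_option linter.unusedSectionVars false

namespace Pool.Agent.H98.SG

open Finset Pool.Agent.H98.ST

variable {V : Type} [Fintype V] [DecidableEq V] {S M : Finset (Finset V)}

theorem release_core (h : IsSTS S) (hM : MaxM S M) {K s K' : ℕ} (hs1 : 1 ≤ s) (hK : K' + 4 ≤ K)
    {B : Finset V} (hB : ∀ b ∈ B, Rel S M K s b) {t : Finset V} (ht : t ∈ M) {z b' : V}
    (hz : z ∈ t) (hb' : b' ∈ t) (hne : b' ≠ z) {F : Finset V} (hF : F.card ≤ K')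
    (hdF : Disjoint (home M b') F)
    (hex : ∃ u ∈ att h M B z, u ∉ F ∧ Disjoint (home M (th h z u)) F) :
    ∃ R A : Finset (Finset V), Exch S M R A ∧ b' ∉ cov A ∧ b' ∈ cov R ∪ unc M ∧
      Disjoint (cov R ∪ cov A) F ∧ (cov R ∪ cov A).card ≤ s + 4 := by
  rw [home_of_mem hM ht hb'] at hdF
  obtain ⟨u, hu, huF, hdu⟩ := hex
  obtain ⟨huU, huz, hbB⟩ := (mem_att h).1 hu
  obtain ⟨hbz, hbu, hT'⟩ := th_spec h huz.symm
  have hbt := third_notMem h hM ht hz huU
  set b := th h z u with hbdef
  have hT : ({z, b, u} : Finset V) ∈ S := by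
    have : ({z, b, u} : Finset V) = {z, u, b} := by
      ext x; simp only [mem_insert, mem_singleton]; tauto
    rw [this]; exact hT'
  have hut : u ∉ t := fun hx => mem_unc.1 huU (mem_cov.2 ⟨t, ht, hx⟩)
  obtain ⟨R, A, e, hbA, hbR, hd, hs⟩ : ∃ R A : Finset (Finset V), Exch S M R A ∧ b ∉ cov A ∧
      b ∈ cov R ∪ unc M ∧ Disjoint (cov R ∪ cov A) (F ∪ t ∪ {u}) ∧
      (cov R ∪ cov A ∪ {b}).card ≤ s := by
    by_cases hbU : b ∈ unc M
    · refine ⟨∅, ∅, exch_empty, by simp [cov], mem_union_right _ hbU, by simp [cov], ?_⟩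
      simp only [cov, biUnion_empty, union_empty, empty_union, card_singleton]
      exact hs1
    · obtain ⟨R, A, e, hbA, hbR, hd, hs⟩ := hB b hbB (F ∪ t ∪ {u})
        (by
          have h1 := card_union_le (F ∪ t) {u}
          have h2 := card_union_le F t
          have h3 := h.three t (hM.sub ht)
          rw [card_singleton] at h1
          omega)
        (by
          rw [disjoint_union_right, disjoint_union_right, disjoint_singleton_right]
          exact ⟨⟨hdu, home_disj_triple hM ht hbt⟩, unc_home hM huU hbu.symm⟩)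
      refine ⟨R, A, e, hbA, hbR, hd, ?_⟩
      have hbR' : b ∈ cov R := by
        rcases mem_union.1 hbR with h3 | h3
        · exact h3
        · exact absurd h3 hbU
      have : cov R ∪ cov A ∪ {b} = cov R ∪ cov A := by
        apply union_eq_left.2
        intro x hx
        rw [mem_singleton] at hx
        rw [hx]; exact mem_union_left _ hbR'
      rw [this]; exact hs
  rw [disjoint_union_right, disjoint_union_right] at hd
  obtain ⟨⟨hdF', hdt⟩, hdu'⟩ := hd
  have htA : ∀ x ∈ t, x ∉ cov A := fun x hx hx' =>
    Finset.disjoint_left.1 hdt (mem_union_right _ hx') hx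
  have huA : u ∉ cov A := fun hx' =>
    Finset.disjoint_left.1 hdu' (mem_union_right _ hx') (mem_singleton_self u)
  have hdT : Disjoint ({z, b, u} : Finset V) (cov A) := by
    rw [Finset.disjoint_left]
    intro x hx
    simp only [mem_insert, mem_singleton] at hx
    rcases hx with hx | hx | hx
    · rw [hx]; exact htA z hz
    · rw [hx]; exact hbA
    · rw [hx]; exact huA
  have htR : t ∉ R := by
    intro htR
    exact Finset.disjoint_left.1 hdt (mem_union_left _ (sub_cov htR hz)) hz
  have hbF : b ∉ F := fun hx => Finset.disjoint_left.1 hdu (self_home b) hx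
  refine ⟨insert t R, insert {z, b, u} A, ⟨insert_subset ht e.hR, insert_subset hT e.hA,
    e.dis.insert hdT, ?_, ?_⟩, ?_, ?_, ?_, ?_⟩
  · rw [cov_insert, cov_insert]
    apply union_subset
    · intro x hx
      simp only [mem_insert, mem_singleton] at hx
      rcases hx with hx | hx | hx
      · rw [hx]; exact mem_union_left _ (mem_union_left _ hz)
      · rw [hx]
        rcases mem_union.1 hbR with h3 | h3
        · exact mem_union_left _ (mem_union_right _ h3)
        · exact mem_union_right _ h3
      · rw [hx]; exact mem_union_right _ huU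
    · intro x hx
      rcases mem_union.1 (e.sub hx) with h3 | h3
      · exact mem_union_left _ (mem_union_right _ h3)
      · exact mem_union_right _ h3
  · rw [card_insert_of_notMem (not_mem_of_disj h hT hdT), card_insert_of_notMem htR, e.card]
  · rw [cov_insert, mem_union, not_or]
    refine ⟨?_, htA b' hb'⟩
    simp only [mem_insert, mem_singleton, not_or]
    exact ⟨hne, fun he => hbt (he ▸ hb'), fun he => hut (he ▸ hb')⟩
  · rw [cov_insert]
    exact mem_union_left _ (mem_union_left _ hb')
  · rw [cov_insert, cov_insert]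
    have h5 := disjoint_union_left.1 hdF'
    simp only [disjoint_union_left]
    refine ⟨⟨hdF, h5.1⟩, ?_, h5.2⟩
    rw [Finset.disjoint_left]
    intro x hx
    simp only [mem_insert, mem_singleton] at hx
    rcases hx with hx | hx | hx
    · rw [hx]; exact fun hzF => Finset.disjoint_left.1 hdF hz hzF
    · rw [hx]; exact hbF
    · rw [hx]; exact huF
  · have hsub : cov (insert t R) ∪ cov (insert {z, b, u} A) ⊆
        (cov R ∪ cov A ∪ {b}) ∪ (t ∪ {u}) := by
      rw [cov_insert, cov_insert]
      intro x hx
      simp only [mem_union, mem_insert, mem_singleton] at hx ⊢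
      rcases hx with (hx | hx) | ((hx | hx | hx) | hx)
      · exact Or.inr (Or.inl hx)
      · exact Or.inl (Or.inl (Or.inl hx))
      · exact Or.inr (Or.inl (hx ▸ hz))
      · exact Or.inl (Or.inr hx)
      · exact Or.inr (Or.inr hx)
      · exact Or.inl (Or.inl (Or.inr hx))
    have h1 := card_le_card hsub
    have h2 := card_union_le (cov R ∪ cov A ∪ {b}) (t ∪ {u})
    have h3 := card_union_le t {u}
    have h5 := h.three t (hM.sub ht)
    rw [card_singleton] at h3
    omega

/-- companions of a point with many attached pairs are releasable -/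
theorem release2 (h : IsSTS S) (hM : MaxM S M) {K s K' : ℕ} (hs1 : 1 ≤ s) (hK : K' + 4 ≤ K)
    {B : Finset V} (hB : ∀ b ∈ B, Rel S M K s b) {t : Finset V} (ht : t ∈ M) {z b' : V}
    (hz : z ∈ t) (hb' : b' ∈ t) (hne : b' ≠ z) (hq : 3 * K' + 1 ≤ (att h M B z).card) :
    Rel S M K' (s + 4) b' := by
  intro F hF hdF
  refine release_core h hM hs1 hK hB ht hz hb' hne hF hdF ?_
  have hzu : ∀ u ∈ att h M B z, z ≠ u := fun u hu => ((mem_att h).1 hu).2.1.symm
  by_contra hno
  push Not at hno
  have hsub : att h M B z ⊆ F.biUnion (fun f => (home M f).image (fun w => th h z w) ∪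
      ({f} ∩ unc M)) := by
    intro u hu
    by_cases huF : u ∈ F
    · exact mem_biUnion.2 ⟨u, huF, mem_union_right _
        (mem_inter.2 ⟨mem_singleton_self u, ((mem_att h).1 hu).1⟩)⟩
    · obtain ⟨f, hf1, hf2⟩ := not_disjoint_iff.1 (hno u hu huF)
      exact mem_biUnion.2 ⟨f, hf2, mem_union_left _
        (mem_image.2 ⟨th h z u, home_symm hM hf1, th_th h (hzu u hu)⟩)⟩
  have h1 := card_le_card hsub
  have h3 : (F.biUnion (fun f => (home M f).image (fun w => th h z w) ∪
      ({f} ∩ unc M))).card ≤ F.card * 3 := by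
    apply card_biUnion_le_card_mul
    intro f _
    have h4 := card_union_le ((home M f).image (fun w => th h z w)) ({f} ∩ unc M)
    by_cases hfU : f ∈ unc M
    · have h5 : ((home M f).image (fun w => th h z w)).card ≤ 1 := by
        rw [home_of_unc hfU]; simp
      have h6 : ({f} ∩ unc M).card ≤ 1 := (card_le_card inter_subset_left).trans (by simp)
      omega
    · have h5 : ((home M f).image (fun w => th h z w)).card ≤ 3 :=
        card_image_le.trans (home_card h hM f)
      have h6 : ({f} ∩ unc M : Finset V) = ∅ := by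
        rw [singleton_inter_of_notMem hfU]
      rw [h6, card_empty] at h4
      rw [h6]
      omega
  omega

/-- the first step -/
theorem release0 (h : IsSTS S) (hM : MaxM S M) {K' : ℕ}
    {B : Finset V} (hBU : B ⊆ unc M) {t : Finset V} (ht : t ∈ M) {z b' : V}
    (hz : z ∈ t) (hb' : b' ∈ t) (hne : b' ≠ z) (hq : 2 * K' + 1 ≤ (att h M B z).card) :
    Rel S M K' 5 b' := by
  intro F hF hdF
  refine release_core h hM (s := 1) (K := K' + 4) (K' := K') le_rfl le_rfl (B := B)
    (fun b hb => rel_unc (hBU hb) _ _) ht hz hb' hne hF hdF ?_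
  have hzu : ∀ u ∈ att h M B z, z ≠ u := fun u hu => ((mem_att h).1 hu).2.1.symm
  by_contra hno
  push Not at hno
  have hsub : att h M B z ⊆ F.biUnion (fun f => {th h z f, f}) := by
    intro u hu
    by_cases huF : u ∈ F
    · exact mem_biUnion.2 ⟨u, huF, by simp⟩
    · obtain ⟨f, hf1, hf2⟩ := not_disjoint_iff.1 (hno u hu huF)
      rw [home_of_unc (hBU ((mem_att h).1 hu).2.2), mem_singleton] at hf1
      refine mem_biUnion.2 ⟨f, hf2, ?_⟩
      rw [hf1, th_th h (hzu u hu)]
      simp
  have h1 := card_le_card hsub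
  have h3 : (F.biUnion (fun f => ({th h z f, f} : Finset V))).card ≤ F.card * 2 :=
    card_biUnion_le_card_mul _ _ _ fun f _ => card_le_two
  omega

end Pool.Agent.H98.SG
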