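import Pool.Agent.H98.SG.Heavy
import Pool.Agent.H98.SG.Layer
import Pool.Agent.H98.SG.Release2

/-! The matching of a Steiner triple system with `n / 3 - (7 / 2) √n` triples: assembly. -/

set_option autoImplicit false
set_option linter.unusedSectionVars false

namespace Pool.Agent.H98.SG

open Finset Pool.Agent.H98.ST

variable {V : Type} [Fintype V] [DecidableEq V] {S M : Finset (Finset V)}

theorem unc_card (h : IsSTS S) (hM : MaxM S M) :
    (unc M).card + 3 * M.card = Fintype.card V := by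
  have e : (cov M).card = 3 * M.card := card_matching h hM.sub hM.dis
  rw [← e, unc, card_sdiff_add_card_eq_card (subset_univ _), card_univ]

/-- The companions of the points at which at least `3 K' + 1` pairs are attached. -/
theorem step (h : IsSTS S) (hM : MaxM S M) {K s K' : ℕ} (hs1 : 1 ≤ s) (hK : K' + 4 ≤ K)
    {B : Finset V} (hB : ∀ b ∈ B, Rel S M K s b) :
    ∃ B' : Finset V, (∀ b ∈ B', Rel S M K' (s + 4) b) ∧ 2 * hv h M B (3 * K' + 1) ≤ B'.card := by
  classical
  refine ⟨univ.filter (fun b => ∃ t ∈ M, ∃ z ∈ t, b ∈ t ∧ b ≠ z ∧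
      3 * K' + 1 ≤ (att h M B z).card), ?_, ?_⟩
  · intro b hb
    obtain ⟨-, t, ht, z, hz, hbt, hbz, hqz⟩ := mem_filter.1 hb
    exact release2 h hM hs1 hK hB ht hz hbt hbz hqz
  · rw [hv_eq]
    refine companions h hM (filter_subset _ _) ?_
    intro t ht
    obtain ⟨htM, z, hz, hqz⟩ := mem_filter.1 ht
    refine ⟨z, hz, fun b hb => ?_⟩
    obtain ⟨hbz, hbt⟩ := mem_erase.1 hb
    exact mem_filter.2 ⟨mem_univ _, t, htM, z, hz, hbt, hbz, hqz⟩

/-- At most `n / 3` points are releasable if `n ≤ d ^ 2` and `d ≥ 18`. -/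
theorem third (h : IsSTS S) (hM : MaxM S M) (h18 : 18 ≤ (unc M).card)
    (hsq : Fintype.card V ≤ (unc M).card * (unc M).card) {K s : ℕ} (hK : s + 8 ≤ K)
    {B : Finset V} (hB : ∀ b ∈ B, Rel S M K s b) : 3 * B.card ≤ Fintype.card V := by
  have h1 := total h hM (B := B) h18
    (fun b hb u hu v hv hub hvb => no_two_unc h hM (by omega) (hB b hb) hu hv hub hvb)
    (fun t ht z₁ hz1 z₂ hz2 hz h7 => one_heavy h hM (K := K) (s := s) hK hB ht hz1 hz2 hz h7)
  have hu := unc_card h hM
  set n := Fintype.card V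
  set d := (unc M).card
  set m := M.card
  set b := B.card
  obtain ⟨e, he⟩ : ∃ e, d = e + 1 := ⟨d - 1, by omega⟩
  rw [he, Nat.add_sub_cancel] at h1
  rw [he] at hsq hu
  have he0 : 0 < e := by omega
  have h2 : (3 * b) * e ≤ n * e := by
    nlinarith
  exact Nat.le_of_mul_le_mul_right h2 he0

/-- The recursion without a logarithm. -/
theorem descent (h : IsSTS S) (hM : MaxM S M) {n d : ℕ} (hn : Fintype.card V = n)
    (hd : (unc M).card = d) (h18 : 18 ≤ d) (hnd : n ≤ d * d) : ∀ R s : ℕ, 1 ≤ s →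
    ∀ B : Finset V, (∀ b ∈ B, Rel S M (s + 8 + 8 * R) s b) →
    (n : ℝ) / 3 * (3 / 4) ^ R < B.card →
    ((s : ℝ) + 85 / 3) * n < B.card * ((d : ℝ) / 3 - 1) →
    ((s : ℝ) + 97 / 3) * n < 4 / 3 * (n / 3 * (3 / 4) ^ R) * ((d : ℝ) / 3 - 1) → False := by
  have hd4 : (18 : ℝ) ≤ d := by exact_mod_cast h18
  have hn0 : (0 : ℝ) ≤ n := Nat.cast_nonneg n
  have hu := unc_card h hM
  rw [hn] at hu
  have hm3 : 3 * (M.card : ℝ) ≤ n := by
    have : 3 * M.card ≤ n := by omega
    exact_mod_cast this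
  have hw : (0 : ℝ) ≤ (d : ℝ) / 3 - 1 := by linarith
  intro R
  induction R using Nat.strong_induction_on with
  | _ R ih =>
    intro s hs1 B hB hi hii hiii
    rcases Nat.eq_zero_or_pos R with h0 | hpos
    · rw [h0, pow_zero, mul_one] at hi
      have h3 := third h hM (by omega) (by rw [hn, hd]; exact hnd) (K := s + 8 + 8 * R) (s := s)
        (by omega) hB
      rw [hn] at h3
      have h3R : 3 * (B.card : ℝ) ≤ n := by exact_mod_cast h3
      linarith
    · obtain ⟨T, rfl⟩ : ∃ T, R = T + 1 := ⟨R - 1, by omega⟩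
      have hpow : ∀ i ≤ T, (3 / 4 : ℝ) ^ T ≤ (3 / 4) ^ i := fun i hiT =>
        pow_le_pow_of_le_one (by norm_num) (by norm_num) hiT
      have hx : (4 / 3 : ℝ) * (n / 3 * (3 / 4) ^ (T + 1)) = n / 3 * (3 / 4) ^ T := by
        rw [pow_succ]; ring
      rw [hx] at hiii
      -- no smaller number of levels is enough
      have hno : ∀ i ≤ T, 2 * (hv h M B (3 * s + 37 + 24 * i) : ℝ) ≤ n / 3 * (3 / 4) ^ i := by
        intro i hiT
        by_contra hc
        push Not at hc
        obtain ⟨B', hB', hc'⟩ := step h hM (K := s + 8 + 8 * (T + 1)) (s := s)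
          (K' := s + 12 + 8 * i) hs1 (by omega) hB
        have e1 : 3 * (s + 12 + 8 * i) + 1 = 3 * s + 37 + 24 * i := by ring
        rw [e1] at hc'
        have hcR : 2 * (hv h M B (3 * s + 37 + 24 * i) : ℝ) ≤ B'.card := by exact_mod_cast hc'
        have e2 : s + 12 + 8 * i = (s + 4) + 8 + 8 * i := by ring
        rw [e2] at hB'
        have hle : (n : ℝ) / 3 * (3 / 4) ^ T ≤ n / 3 * (3 / 4) ^ i :=
          mul_le_mul_of_nonneg_left (hpow i hiT) (by positivity)
        refine ih i (by omega) (s + 4) (by omega) B' hB' (by linarith) ?_ ?_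
        · have h5 : (n : ℝ) / 3 * (3 / 4) ^ T * ((d : ℝ) / 3 - 1) ≤
              B'.card * ((d : ℝ) / 3 - 1) := mul_le_mul_of_nonneg_right (by linarith) hw
          push_cast
          linarith
        · have h5 : (n : ℝ) / 3 * (3 / 4) ^ T * ((d : ℝ) / 3 - 1) ≤
              n / 3 * (3 / 4) ^ i * ((d : ℝ) / 3 - 1) := mul_le_mul_of_nonneg_right hle hw
          have hs0 : (0 : ℝ) ≤ (s : ℝ) * n := by positivity
          push_cast
          nlinarith
      have hlay := layer h hM (B := B) (q := 3 * s + 37) (by omega)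
        (fun b hb u hu v hv hub hvb => no_two_unc h hM (by omega) (hB b hb) hu hv hub hvb)
        (fun t ht z₁ hz1 z₂ hz2 hz h7 => one_heavy h hM (K := s + 8 + 8 * (T + 1)) (s := s)
          (by omega) hB ht hz1 hz2 hz h7) T
      rw [hd] at hlay
      have hlayR : (B.card : ℝ) * ((d : ℝ) - 1) ≤ (3 * s + 37) * M.card +
          ∑ i ∈ range T, 24 * (hv h M B (3 * s + 37 + 24 * i) : ℝ) +
          d * hv h M B (3 * s + 37 + 24 * T) := by
        have h8 : ((B.card * (d - 1) : ℕ) : ℝ) ≤ (((3 * s + 37) * M.card +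
          ∑ i ∈ range T, 24 * hv h M B (3 * s + 37 + 24 * i) +
          d * hv h M B (3 * s + 37 + 24 * T) : ℕ) : ℝ) := by exact_mod_cast hlay
        push_cast [Nat.cast_sub (show 1 ≤ d by omega)] at h8
        exact h8
      have hgeo : ∑ i ∈ range T, 24 * (hv h M B (3 * s + 37 + 24 * i) : ℝ) ≤ 16 * n := by
        have h6 : ∑ i ∈ range T, 24 * (hv h M B (3 * s + 37 + 24 * i) : ℝ) ≤
            ∑ i ∈ range T, 4 * n * (3 / 4 : ℝ) ^ i := by
          apply sum_le_sum
          intro i hi'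
          have := hno i (le_of_lt (mem_range.1 hi'))
          linarith
        have h7 : (0 : ℝ) ≤ (3 / 4) ^ T := by positivity
        have h8 : ∑ i ∈ range T, 4 * n * (3 / 4 : ℝ) ^ i =
            16 * n - 16 * (n * (3 / 4) ^ T) := by
          rw [← mul_sum, geom_sum_eq (by norm_num : (3 / 4 : ℝ) ≠ 1)]
          ring
        rw [h8] at h6
        have h9 : (0 : ℝ) ≤ n * (3 / 4) ^ T := mul_nonneg hn0 h7
        linarith
      have hlast : (d : ℝ) * hv h M B (3 * s + 37 + 24 * T) ≤ 2 / 3 * (B.card * d) := by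
        have h6 := hno T le_rfl
        have h7 : (n : ℝ) / 3 * (3 / 4) ^ T = 4 / 3 * (n / 3 * (3 / 4) ^ (T + 1)) := hx.symm
        have h8 : (hv h M B (3 * s + 37 + 24 * T) : ℝ) ≤ 2 / 3 * B.card := by linarith
        have h9 := mul_le_mul_of_nonneg_left h8 (show (0 : ℝ) ≤ d by linarith)
        linarith
      have hfirst : (3 * (s : ℝ) + 37) * M.card ≤ (s + 37 / 3) * n := by
        have h6 : (0 : ℝ) ≤ (s : ℝ) + 37 / 3 := by positivity
        have h7 := mul_le_mul_of_nonneg_left hm3 h6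
        linarith
      linarith

/-- A maximum matching missing `d` points has `d (d - 3) ≤ 100 n`. -/
theorem bound (h : IsSTS S) (hM : MaxM S M) :
    (unc M).card * ((unc M).card - 3) ≤ 100 * Fintype.card V := by
  classical
  by_contra hc
  push Not at hc
  have hu := unc_card h hM
  set n := Fintype.card V with hn
  set d := (unc M).card with hd
  have hdn : d ≤ n := by omega
  have h18 : 18 ≤ d := by
    by_contra hlt
    have h1 : d * (d - 3) ≤ n * 17 := Nat.mul_le_mul hdn (by omega)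
    omega
  have hsq : n ≤ d * d := by
    have h1 : d * (d - 3) ≤ d * d := Nat.mul_le_mul_left _ (by omega)
    omega
  have hd5 : (18 : ℝ) ≤ d := by exact_mod_cast h18
  have hn0 : (0 : ℝ) ≤ n := Nat.cast_nonneg n
  have hc' : 100 * (n : ℝ) < d * (d - 3) := by
    have h5 : ((100 * n : ℕ) : ℝ) < ((d * (d - 3) : ℕ) : ℝ) := by exact_mod_cast hc
    push_cast [Nat.cast_sub (show 3 ≤ d by omega)] at h5
    exact h5
  have h3U : 3 * d ≤ n := third h hM (by rw [← hd]; exact h18) (by rw [← hd, ← hn]; exact hsq)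
    (K := 9) (s := 1) (by omega) (B := unc M) (fun b hb => rel_unc hb _ _)
  have h3R : 3 * (d : ℝ) ≤ n := by exact_mod_cast h3U
  have hex : ∃ R : ℕ, (n : ℝ) / 3 * (3 / 4) ^ R < d := by
    obtain ⟨R, hR⟩ := exists_pow_lt_of_lt_one (show (0 : ℝ) < 1 / (n + 1) by positivity)
      (show (3 / 4 : ℝ) < 1 by norm_num)
    refine ⟨R, ?_⟩
    have h5 : (n : ℝ) / 3 * (3 / 4) ^ R ≤ n / 3 * (1 / (n + 1)) :=
      mul_le_mul_of_nonneg_left hR.le (by positivity)
    have h6 : (n : ℝ) * (1 / (n + 1)) ≤ 1 := by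
      rw [mul_one_div, div_le_one (by positivity)]; linarith
    linarith
  obtain ⟨R, hR, hmin⟩ : ∃ R : ℕ, (n : ℝ) / 3 * (3 / 4) ^ R < d ∧
      ∀ k < R, ¬ (n : ℝ) / 3 * (3 / 4) ^ k < d :=
    ⟨Nat.find hex, Nat.find_spec hex, fun k hk => Nat.find_min hex hk⟩
  have hR0 : 0 < R := by
    rcases Nat.eq_zero_or_pos R with h0 | hpos
    · rw [h0, pow_zero, mul_one] at hR
      linarith
    · exact hpos
  refine descent h hM hn.symm hd.symm h18 hsq R 1 le_rfl (unc M)
    (fun b hb => rel_unc hb _ _) (by rw [← hd]; exact hR) ?_ ?_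
  · rw [← hd]
    push_cast
    nlinarith
  · have h5 : (d : ℝ) ≤ 4 / 3 * (n / 3 * (3 / 4) ^ R) := by
      obtain ⟨T, rfl⟩ : ∃ T, R = T + 1 := ⟨R - 1, by omega⟩
      have h6 := hmin T (by omega)
      push Not at h6
      have h7 : (4 / 3 : ℝ) * (n / 3 * (3 / 4) ^ (T + 1)) = n / 3 * (3 / 4) ^ T := by
        rw [pow_succ]; ring
      rw [h7]; exact h6
    have h6 := mul_le_mul_of_nonneg_right h5 (show (0 : ℝ) ≤ (d : ℝ) / 3 - 1 by linarith)
    push_cast
    nlinarith

theorem exists_maxM (S : Finset (Finset V)) : ∃ M, MaxM S M := by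
  classical
  obtain ⟨M, hM, hmax⟩ := exists_max_image (S.powerset.filter (fun M => PD M))
    Finset.card ⟨∅, by
      simp only [mem_filter, mem_powerset]
      exact ⟨empty_subset _, fun s hs => absurd hs (notMem_empty s)⟩⟩
  simp only [mem_filter, mem_powerset] at hM hmax
  exact ⟨M, hM.1, hM.2, fun M' h1 h2 => hmax M' ⟨h1, h2⟩⟩

theorem main (h : IsSTS S) : ∃ M : Finset (Finset V), M ⊆ S ∧ PD M ∧
    (∀ d : ℕ, Fintype.card V = 3 * M.card + d → d * (d - 3) ≤ 100 * Fintype.card V) ∧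
    (Fintype.card V : ℝ) / 3 - 7 / 2 * √(Fintype.card V) ≤ M.card := by
  obtain ⟨M, hM⟩ := exists_maxM S
  have hu := unc_card h hM
  have hb := bound h hM
  refine ⟨M, hM.sub, hM.dis, fun d hd => ?_, ?_⟩
  · have e : d = (unc M).card := by omega
    rw [e]; exact hb
  · set n := Fintype.card V with hn
    set d := (unc M).card with hd
    have hnd : (d : ℝ) + 3 * M.card = n := by exact_mod_cast hu
    have key : (d : ℝ) ≤ 21 / 2 * √n := by
      by_contra hcon
      push Not at hcon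
      have hn0 : (0 : ℝ) ≤ n := Nat.cast_nonneg n
      have hd0 : (0 : ℝ) ≤ d := Nat.cast_nonneg d
      have hdn : (d : ℝ) ≤ n := by
        have : d ≤ n := by omega
        exact_mod_cast this
      have hsq : 441 / 4 * (n : ℝ) < d * d := by
        have h1 : 0 ≤ 21 / 2 * √(n : ℝ) := by positivity
        have h2 : (21 / 2 * √(n : ℝ)) ^ 2 < (d : ℝ) ^ 2 := pow_lt_pow_left₀ hcon h1 (by norm_num)
        rw [mul_pow, Real.sq_sqrt hn0] at h2
        nlinarith
      have hd110 : (441 / 4 : ℝ) < d := by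
        have h1 : 441 / 4 * (d : ℝ) < d * d := by nlinarith
        have h2 : (0 : ℝ) < d := by
          rcases hd0.eq_or_lt with h0 | h0
          · rw [← h0] at h1; norm_num at h1
          · exact h0
        exact lt_of_mul_lt_mul_right h1 h2.le
      have hd3 : 3 ≤ d := by
        have : (3 : ℝ) ≤ d := by linarith
        exact_mod_cast this
      have hbR : (d : ℝ) * (d - 3) ≤ 100 * n := by
        have h5 : ((d * (d - 3) : ℕ) : ℝ) ≤ ((100 * n : ℕ) : ℝ) := by exact_mod_cast hb
        push_cast [Nat.cast_sub hd3] at h5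
        exact h5
      nlinarith
    linarith

end Pool.Agent.H98.SG
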