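import Pool.Agent.H98.SG.Light
import Pool.Agent.H98.SG.FinalCube

/-! Steiner triple systems: the matching with `n / 3 - C n ^ (1 / 3) log n` triples. -/

set_option autoImplicit false
set_option linter.unusedSectionVars false

namespace Pool.Agent.H98.SG

open Finset Pool.Agent.H98.ST

variable {V : Type} [Fintype V] [DecidableEq V] {S M : Finset (Finset V)}

theorem sqrt_form (h : IsSTS S) (hM : MaxM S M) :
    (Fintype.card V : ℝ) / 3 - 7 / 2 * √(Fintype.card V) ≤ M.card := by
  have hu := unc_card h hM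
  have hb := bound h hM
  set n := Fintype.card V with hn
  set d := (unc M).card with hd
  have hnd : (d : ℝ) + 3 * M.card = n := by exact_mod_cast hu
  have key : (d : ℝ) ≤ 21 / 2 * √n := by
    by_contra hcon
    push Not at hcon
    have hn0 : (0 : ℝ) ≤ n := Nat.cast_nonneg n
    have hd0 : (0 : ℝ) ≤ d := Nat.cast_nonneg d
    have hdn : (d : ℝ) ≤ n := by
      have : d ≤ n := by omega
      exact_mod_cast this
    have hsq : 441 / 4 * (n : ℝ) < d * d := by
      have h1 : 0 ≤ 21 / 2 * √(n : ℝ) := by positivity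
      have h2 : (21 / 2 * √(n : ℝ)) ^ 2 < (d : ℝ) ^ 2 := pow_lt_pow_left₀ hcon h1 (by norm_num)
      rw [mul_pow, Real.sq_sqrt hn0] at h2
      nlinarith
    have hd110 : (441 / 4 : ℝ) < d := by
      have h1 : 441 / 4 * (d : ℝ) < d * d := by nlinarith
      have h2 : (0 : ℝ) < d := by
        rcases hd0.eq_or_lt with h0 | h0
        · rw [← h0] at h1; norm_num at h1
        · exact h0
      exact lt_of_mul_lt_mul_right h1 h2.le
    have hd3 : 3 ≤ d := by
      have : (3 : ℝ) ≤ d := by linarith
      exact_mod_cast this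
    have hbR : (d : ℝ) * (d - 3) ≤ 100 * n := by
      have h5 : ((d * (d - 3) : ℕ) : ℝ) ≤ ((100 * n : ℕ) : ℝ) := by exact_mod_cast hb
      push_cast [Nat.cast_sub hd3] at h5
      exact h5
    nlinarith
  linarith

theorem main3 (h : IsSTS S) : ∃ M : Finset (Finset V), M ⊆ S ∧ PD M ∧
    (∀ d : ℕ, Fintype.card V = 3 * M.card + d → d * (d - 3) ≤ 100 * Fintype.card V) ∧
    (Fintype.card V : ℝ) / 3 - 7 / 2 * √(Fintype.card V) ≤ M.card ∧
    (2 ≤ Fintype.card V → (Fintype.card V : ℝ) / 3 -
      210 * (Fintype.card V : ℝ) ^ ((1 : ℝ) / 3) * Real.log (Fintype.card V) ≤ M.card) := by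
  obtain ⟨M, hM⟩ := exists_maxM S
  have hu := unc_card h hM
  refine ⟨M, hM.sub, hM.dis, fun d hd => ?_, sqrt_form h hM, fun h2 => ?_⟩
  · have e : d = (unc M).card := by omega
    subst e
    exact bound h hM
  · have h3 := final_cube (Fintype.card V) (unc M).card h2 (by omega)
      (fun J h1 h2 => cube h hM (light h hM) h1 h2)
    have h4 : ((unc M).card : ℝ) + 3 * M.card = Fintype.card V := by exact_mod_cast hu
    linarith

end Pool.Agent.H98.SG
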